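import Mathlib
import Pool.Agent.Lib.MP_9cfc0a_nt.Mg.G023
import Pool.Agent.Lib.MP_9cfc0a_nt.Mg.G027
import Pool.Agent.Lib.MP_9cfc0a_nt.Mg.G025
import Pool.Agent.Lib.MP_9cfc0a_nt.MY.C2
import Pool.Agent.Lib.MP_9cfc0a_nt.Mg.G026
import Pool.Agent.Lib.MP_9cfc0a_nt.MZ.Q3

set_option autoImplicit false

namespace Pool.Agent.MW

open Complex Finset MY MZ

open Classical in
/-- The near and far part of a row or column. -/
lemma A12_core (q : ℕ) [NeZero q] (hq : 2 ≤ q) (θ : ℝ) (hθ : 1 / 2 ≤ θ) (hθ1 : θ < 1) (G : Finset (ZMod q)ˣ) (hG : 1 ≤ G.card)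
    (D : (ZMod q)ˣ → Finset ℕ) (hD : ∀ g, ∀ d ∈ D g, 1 ≤ d ∧ d ≤ q) (Dm : ℝ)
    (hDm : ∀ g, ((D g).card : ℝ) ≤ Dm) (U : ℝ) (hU : (q : ℝ) ≤ U) (M : ℕ) (E : ℝ)
    (hE : ∀ n : ℕ, 1 ≤ n → n ≤ q ^ 2 → (n.divisors.card : ℝ) ≤ E) (Z : ℝ) (hZ : 1 ≤ Z)
    (hz : ∀ n : ℕ, 2 ≤ n → n < q → Nat.Coprime n q → un q n ∈ G → (n : ℝ) ≤ Z →
      cn (D (un q n)) U n = 0) :
    ∑ n ∈ (Icc 2 M).filter (fun n => Nat.Coprime n q ∧ un q n ∈ G),
      |cn (D (un q n)) U n| * (n : ℝ) ^ (-θ)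
      ≤ E * G.card * Z ^ (-θ) +
        (1 / (1 - θ) * E * (G.card : ℝ) ^ (2 - θ) / (q : ℝ) ^ θ
        + Dm * G.card * (2 * U / q + 1) / ((G.card : ℝ) * q) ^ θ) := by
  have hE0 : 0 ≤ E := by
    have h1 := hE 1 le_rfl (Nat.one_le_pow _ _ (by omega))
    have h2 : (0 : ℝ) ≤ ((Nat.divisors 1).card : ℝ) := Nat.cast_nonneg _
    linarith
  have hnn : ∀ n : ℕ, 0 ≤ |cn (D (un q n)) U n| * (n : ℝ) ^ (-θ) := fun n =>
    mul_nonneg (abs_nonneg _) (Real.rpow_nonneg (Nat.cast_nonneg n) _)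
  have hZ0 : 0 ≤ Z ^ (-θ) := Real.rpow_nonneg (by linarith) _
  have hfar := far_gen q hq θ hθ hθ1 G hG D hD Dm hDm U hU M E hE
  have hsub : (Icc 2 M).filter (fun n => Nat.Coprime n q ∧ un q n ∈ G) ⊆
      (Icc 2 q).filter (fun n => Nat.Coprime n q ∧ un q n ∈ G) ∪
      (Icc (q + 1) M).filter (fun n => Nat.Coprime n q ∧ un q n ∈ G) := by
    intro n hn
    rw [mem_filter, mem_Icc] at hn
    rw [mem_union, mem_filter, mem_filter, mem_Icc, mem_Icc]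
    rcases Nat.lt_or_ge q n with h1 | h1
    · exact .inr ⟨⟨h1, hn.1.2⟩, hn.2⟩
    · exact .inl ⟨⟨hn.1.1, h1⟩, hn.2⟩
  have h1 := sum_le_sum_of_subset_of_nonneg hsub (f := fun n =>
    |cn (D (un q n)) U n| * (n : ℝ) ^ (-θ)) fun n _ _ => hnn n
  have h2 := sum_union_inter (s₁ := (Icc 2 q).filter (fun n => Nat.Coprime n q ∧ un q n ∈ G))
    (s₂ := (Icc (q + 1) M).filter (fun n => Nat.Coprime n q ∧ un q n ∈ G))
    (f := fun n : ℕ => |cn (D (un q n)) U n| * (n : ℝ) ^ (-θ))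
  have h3 : 0 ≤ ∑ n ∈ (Icc 2 q).filter (fun n => Nat.Coprime n q ∧ un q n ∈ G) ∩
      (Icc (q + 1) M).filter (fun n => Nat.Coprime n q ∧ un q n ∈ G),
      |cn (D (un q n)) U n| * (n : ℝ) ^ (-θ) := sum_nonneg fun n _ => hnn n
  have h4 : ∑ n ∈ (Icc 2 q).filter (fun n => Nat.Coprime n q ∧ un q n ∈ G),
      |cn (D (un q n)) U n| * (n : ℝ) ^ (-θ) ≤ E * G.card * Z ^ (-θ) := by
    have h5 : ∀ n ∈ (Icc 2 q).filter (fun n => Nat.Coprime n q ∧ un q n ∈ G),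
        |cn (D (un q n)) U n| * (n : ℝ) ^ (-θ) ≤ E * Z ^ (-θ) := by
      intro n hn
      rw [mem_filter, mem_Icc] at hn
      obtain ⟨⟨h6, h7⟩, h8, h9⟩ := hn
      have h10 : n < q := by
        rcases lt_or_eq_of_le h7 with h | h
        · exact h
        · exfalso
          rw [h, Nat.coprime_self] at h8
          omega
      rcases le_or_gt (n : ℝ) Z with h11 | h11
      · rw [hz n h6 h10 h8 h9 h11, abs_zero, zero_mul]
        positivity
      · have h12 : |cn (D (un q n)) U n| ≤ E :=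
          (cn_le _ _ n (by omega)).trans (hE n (by omega) (by nlinarith))
        have h13 : (n : ℝ) ^ (-θ) ≤ Z ^ (-θ) :=
          Real.rpow_le_rpow_of_nonpos (by linarith) h11.le (by linarith)
        exact mul_le_mul h12 h13 (Real.rpow_nonneg (Nat.cast_nonneg n) _) hE0
    refine (sum_le_sum h5).trans ?_
    rw [sum_const, nsmul_eq_mul]
    have h6 : (((Icc 2 q).filter (fun n => Nat.Coprime n q ∧ un q n ∈ G)).card : ℝ) ≤ G.card := by
      exact_mod_cast Q3_card q hq G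
    calc _ ≤ (G.card : ℝ) * (E * Z ^ (-θ)) :=
          mul_le_mul_of_nonneg_right h6 (by positivity)
      _ = _ := by ring
  linarith

open Classical in
/-- A12. Rows, columns and total weight of the mollified kernel (as `MZ.Q3`). -/
lemma rowcol (θ ε₀ : ℝ) (hθ : 1 / 2 ≤ θ) (hθ1 : θ < 1) (h0 : 0 < ε₀) (h1 : ε₀ ≤ 1 / 10) :
    ∃ (C : ℝ) (q₀ : ℕ), 1 ≤ C ∧
    ∀ (q : ℕ) [NeZero q], q₀ ≤ q → ∀ B : Finset (ZMod q)ˣ, B.Nonempty →
    (B.card : ℝ) ≤ (q : ℝ) ^ (θ / (2 - θ) - ε₀) →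
    4 * (B.card : ℝ) ≤ q.totient ∧
    (∀ a, ((Dz q B (ZW q θ ε₀) a).card : ℝ) ≤ q) ∧
    (∀ a ∈ B, ∑ n ∈ (Icc 2 (q * NN q ε₀)).filter
        (fun n => Nat.Coprime n q ∧ a * (un q n)⁻¹ ∈ B),
        |cw q θ ε₀ B a n| * (n : ℝ) ^ (-θ) ≤ (q : ℝ) ^ (-((1 - θ) * ε₀ / 2))) ∧
    (∀ a ∈ B, ∑ n ∈ (Icc 2 (q * NN q ε₀)).filter
        (fun n => Nat.Coprime n q ∧ a * un q n ∈ B),
        |cw q θ ε₀ B (a * un q n) n| * (n : ℝ) ^ (-θ) ≤ (q : ℝ) ^ (-((1 - θ) * ε₀ / 2))) ∧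
    (∀ a, WW q θ ε₀ B a ≤ C * ((B.card : ℝ) * q) ^ (1 - θ) * (q : ℝ) ^ (ε₀ / 4)) := by
  have h1θ : 0 < 1 - θ := by linarith
  have h2θ : 0 < 2 - θ := by linarith
  set e : ℝ := (1 - θ) * ε₀ / 40 with he
  have he0 : 0 < e := by positivity
  have hee : (40 : ℝ) * e = (1 - θ) * ε₀ := by rw [he]; ring
  have hdq : θ / (2 - θ) ≤ 1 := by
    rw [div_le_one h2θ]
    linarith
  have heε : (1 - θ) * ε₀ ≤ ε₀ / 2 := by nlinarith
  obtain ⟨C', hC', hDz⟩ := Dz_card e he0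
  obtain ⟨C'', hC'', hdiv⟩ := MC.C2.divisor_bound e he0
  set C1 : ℝ := 1 + C' with hC1
  set K1 : ℝ := 1 + 2 / e with hK1
  have hK1pos : 1 ≤ K1 := by
    have : 0 < 2 / e := by positivity
    linarith
  have hC1pos : 2 ≤ C1 := by linarith
  set c0 : ℝ := 1 / (1 - θ) with hc0
  have hc0pos : 0 < c0 := by positivity
  set K3 : ℝ := 4 * K1 + C1 + ((1 + c0) * C'' + 3 * C1) with hK3
  have hcC : 0 ≤ c0 * C'' := mul_nonneg hc0pos.le hC''
  have hK3a : 4 * K1 ≤ K3 := by rw [hK3]; nlinarith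
  have hK3b : C1 ≤ K3 := by rw [hK3]; nlinarith
  have hK3c : (1 + c0) * C'' + 3 * C1 ≤ K3 := by rw [hK3]; linarith
  have hK3pos : 1 ≤ K3 := by linarith
  have hc1 : 1 ≤ 2 / (1 - θ) ^ 2 := by
    rw [le_div_iff₀ (by positivity)]
    nlinarith
  refine ⟨2 / (1 - θ) ^ 2 * C1, max 2 ⌈K3 ^ (1 / e)⌉₊,
    one_le_mul_of_one_le_of_one_le hc1 (by linarith), ?_⟩
  intro q _ hq B hBne hB
  have hq2 : 2 ≤ q := (le_max_left _ _).trans hq
  have hQ2 : (2 : ℝ) ≤ q := by exact_mod_cast hq2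
  set Q : ℝ := (q : ℝ) with hQ
  have hQ0 : 0 < Q := by linarith
  have hQ1 : 1 ≤ Q := by linarith
  set x : ℝ := Q ^ e with hx
  have hxK : K3 ≤ x := by
    have h2 : K3 ^ (1 / e) ≤ Q := by
      have h3 : K3 ^ (1 / e) ≤ (⌈K3 ^ (1 / e)⌉₊ : ℝ) := Nat.le_ceil _
      have h4 : ((⌈K3 ^ (1 / e)⌉₊ : ℕ) : ℝ) ≤ Q := by
        rw [hQ]
        exact_mod_cast (le_max_right _ _).trans hq
      linarith
    have h5 := Real.rpow_le_rpow (by positivity) h2 he0.le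
    rw [← Real.rpow_mul (by linarith), one_div_mul_cancel he0.ne', Real.rpow_one] at h5
    exact h5
  have hx1 : 1 ≤ x := by linarith
  have hx0 : 0 < x := by linarith
  have hb1 : (1 : ℝ) ≤ B.card := by exact_mod_cast hBne.card_pos
  set b : ℝ := (B.card : ℝ) with hb
  have hb0 : 0 < b := by linarith
  have hpow : ∀ m : ℕ, Q ^ ((m : ℝ) * e) = x ^ m := by
    intro m
    rw [hx, ← Real.rpow_natCast, ← Real.rpow_mul hQ0.le]
    congr 1
    ring
  have hx20 : Q ^ ((1 - θ) * ε₀ / 2) = x ^ 20 := by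
    rw [← hpow 20]
    congr 1
    rw [he]
    push_cast
    ring
  have hx20' : Q ^ (-((1 - θ) * ε₀ / 2)) = (x ^ 20)⁻¹ := by
    rw [Real.rpow_neg hQ0.le, hx20]
  set w : ℝ := Q ^ (ε₀ / 40) with hw
  have hxw : x ≤ w := by
    rw [hx, hw]
    refine Real.rpow_le_rpow_of_exponent_le hQ1 ?_
    linarith
  have hw1 : 1 ≤ w := hx1.trans hxw
  have hw0 : 0 < w := by linarith
  have hw10 : Q ^ (ε₀ / 4) = w ^ 10 := by
    rw [hw, ← Real.rpow_natCast, ← Real.rpow_mul hQ0.le]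
    congr 1
    push_cast
    ring
  have hUx : UU q ε₀ = Q * w := by
    show Q ^ (1 + ε₀ / 40) = Q * w
    rw [Real.rpow_add hQ0, Real.rpow_one]
  -- the size conditions
  have hbx40 : b * x ^ 40 ≤ Q := by
    rw [← hpow 40]
    calc b * Q ^ (((40 : ℕ) : ℝ) * e) ≤ Q ^ (θ / (2 - θ) - ε₀) * Q ^ (((40 : ℕ) : ℝ) * e) :=
          mul_le_mul_of_nonneg_right hB (Real.rpow_nonneg hQ0.le _)
      _ = Q ^ (θ / (2 - θ) - ε₀ + ((40 : ℕ) : ℝ) * e) := by rw [← Real.rpow_add hQ0]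
      _ ≤ Q ^ (1 : ℝ) := by
          refine Real.rpow_le_rpow_of_exponent_le hQ1 ?_
          push_cast
          linarith
      _ = Q := Real.rpow_one Q
  have hb32 : b ^ (2 - θ) * (x ^ 40 * w) ≤ Q ^ θ := by
    have h2 : b ^ (2 - θ) ≤ (Q ^ (θ / (2 - θ) - ε₀)) ^ (2 - θ) :=
      Real.rpow_le_rpow hb0.le hB h2θ.le
    rw [← Real.rpow_mul hQ0.le] at h2
    rw [← hpow 40]
    calc b ^ (2 - θ) * (Q ^ (((40 : ℕ) : ℝ) * e) * w)
        ≤ Q ^ ((θ / (2 - θ) - ε₀) * (2 - θ)) * (Q ^ (((40 : ℕ) : ℝ) * e) * w) :=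
          mul_le_mul_of_nonneg_right h2 (mul_nonneg (Real.rpow_nonneg hQ0.le _) hw0.le)
      _ = Q ^ ((θ / (2 - θ) - ε₀) * (2 - θ) + (((40 : ℕ) : ℝ) * e + ε₀ / 40)) := by
          rw [hw, ← Real.rpow_add hQ0, ← Real.rpow_add hQ0]
      _ ≤ Q ^ θ := by
          refine Real.rpow_le_rpow_of_exponent_le hQ1 ?_
          have h3 : (θ / (2 - θ) - ε₀) * (2 - θ) = θ - ε₀ * (2 - θ) := by
            field_simp
          rw [h3]
          push_cast
          linarith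
  set Z : ℝ := ZW q θ ε₀ with hZdef
  have hZe : Z = Q ^ (1 / (2 - θ) - ε₀) := rfl
  have hZ1 : 1 ≤ Z := by
    rw [hZe]
    refine Real.one_le_rpow hQ1 ?_
    have h2 : 1 / 2 ≤ 1 / (2 - θ) := one_div_le_one_div_of_le h2θ (by linarith)
    linarith
  have hbZ : b * Z ^ (-θ) * x ^ 40 ≤ 1 := by
    rw [hZe, ← Real.rpow_mul hQ0.le, ← hpow 40]
    calc b * Q ^ ((1 / (2 - θ) - ε₀) * (-θ)) * Q ^ (((40 : ℕ) : ℝ) * e)
        ≤ Q ^ (θ / (2 - θ) - ε₀) * Q ^ ((1 / (2 - θ) - ε₀) * (-θ)) *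
            Q ^ (((40 : ℕ) : ℝ) * e) := by
          refine mul_le_mul_of_nonneg_right ?_ (Real.rpow_nonneg hQ0.le _)
          exact mul_le_mul_of_nonneg_right hB (Real.rpow_nonneg hQ0.le _)
      _ = Q ^ (θ / (2 - θ) - ε₀ + (1 / (2 - θ) - ε₀) * (-θ) + ((40 : ℕ) : ℝ) * e) := by
          rw [← Real.rpow_add hQ0, ← Real.rpow_add hQ0]
      _ = Q ^ (0 : ℝ) := by
          congr 1
          push_cast
          rw [hee]
          field_simp
          ring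
      _ = 1 := Real.rpow_zero Q
      _ ≤ 1 := le_rfl
  have hφ0 : (0 : ℝ) < (q.totient : ℝ) := by
    exact_mod_cast Nat.totient_pos.2 (by omega)
  set φ : ℝ := (q.totient : ℝ) with hφ
  have hφ1 : Q ≤ K1 * x * φ := C2_phi e he0 q (by omega)
  have hx240 : x ^ 2 ≤ x ^ 40 := pow_le_pow_right₀ hx1 (by norm_num)
  have hDle : ∀ a, ((Dz q B Z a).card : ℝ) ≤ C1 * (b * x) := by
    intro a
    have h2 := hDz q hq2 B Z a
    have h3 : 1 ≤ b * x := one_le_mul_of_one_le_of_one_le hb1 hx1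
    calc ((Dz q B Z a).card : ℝ) ≤ 1 + C' * b * x := h2
      _ ≤ b * x + C' * (b * x) := by linarith
      _ = _ := by rw [hC1]; ring
  have hUq : Q ≤ Q * w := le_mul_of_one_le_right hQ0.le hw1
  have hU1 : 1 ≤ Q * w := by linarith
  have hE : ∀ n : ℕ, 1 ≤ n → n ≤ q ^ 2 → (n.divisors.card : ℝ) ≤ C'' * x ^ 2 := by
    intro n hn hnq
    refine (hdiv n hn).trans (mul_le_mul_of_nonneg_left ?_ hC'')
    have h2 : (n : ℝ) ≤ Q ^ (2 : ℝ) := by
      have h3 : (n : ℝ) ≤ ((q ^ 2 : ℕ) : ℝ) := by exact_mod_cast hnq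
      push_cast at h3
      rw [hQ]
      have h4 : ((q : ℝ)) ^ (2 : ℝ) = (q : ℝ) ^ 2 := by
        rw [← Real.rpow_natCast]
        norm_num
      rw [h4]
      exact h3
    calc (n : ℝ) ^ e ≤ (Q ^ (2 : ℝ)) ^ e := Real.rpow_le_rpow (Nat.cast_nonneg n) h2 he0.le
      _ = x ^ 2 := by
          rw [← Real.rpow_mul hQ0.le, ← hpow 2]
          congr 1
  -- the common numerical bound
  have hnum : C'' * x ^ 2 * b * Z ^ (-θ) +
      (c0 * (C'' * x ^ 2) * b ^ (2 - θ) / Q ^ θ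
        + C1 * (b * x) * b * (2 * (Q * w) / Q + 1) / (b * Q) ^ θ) ≤ (x ^ 20)⁻¹ := by
    have hQh : 0 < Q ^ θ := Real.rpow_pos_of_pos hQ0 _
    have hbh : 0 < b ^ θ := Real.rpow_pos_of_pos hb0 _
    have hb2 : 0 ≤ b ^ (2 - θ) / Q ^ θ :=
      div_nonneg (Real.rpow_nonneg hb0.le _) hQh.le
    have h2 : b ^ (2 - θ) / Q ^ θ * w ≤ (x ^ 40)⁻¹ := by
      rw [div_mul_eq_mul_div, div_le_iff₀ hQh, inv_mul_eq_div, le_div_iff₀ (by positivity)]
      calc b ^ (2 - θ) * w * x ^ 40 = b ^ (2 - θ) * (x ^ 40 * w) := by ring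
        _ ≤ _ := hb32
    have h2' : b ^ (2 - θ) / Q ^ θ ≤ (x ^ 40)⁻¹ :=
      (le_mul_of_one_le_right hb2 hw1).trans h2
    have h3 : b * Z ^ (-θ) ≤ (x ^ 40)⁻¹ := by
      rw [← one_div, le_div_iff₀ (by positivity)]
      exact hbZ
    have h4 : C'' * x ^ 2 * b * Z ^ (-θ) ≤ C'' * (x ^ 38)⁻¹ := by
      calc C'' * x ^ 2 * b * Z ^ (-θ) = C'' * x ^ 2 * (b * Z ^ (-θ)) := by ring
        _ ≤ C'' * x ^ 2 * (x ^ 40)⁻¹ := mul_le_mul_of_nonneg_left h3 (by positivity)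
        _ = C'' * (x ^ 38)⁻¹ := by
            field_simp
    have h5 : (x ^ 40)⁻¹ * x ^ 2 ≤ (x ^ 38)⁻¹ := by
      rw [inv_mul_eq_div, div_le_iff₀ (by positivity), inv_mul_eq_div, le_div_iff₀ (by positivity)]
      calc x ^ 2 * x ^ 38 = x ^ 40 := by ring
        _ ≤ x ^ 40 := le_rfl
    have h6 : c0 * (C'' * x ^ 2) * b ^ (2 - θ) / Q ^ θ ≤ c0 * C'' * (x ^ 38)⁻¹ := by
      calc c0 * (C'' * x ^ 2) * b ^ (2 - θ) / Q ^ θ
          = c0 * C'' * ((b ^ (2 - θ) / Q ^ θ) * x ^ 2) := by ring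
        _ ≤ c0 * C'' * ((x ^ 40)⁻¹ * x ^ 2) := by
            refine mul_le_mul_of_nonneg_left ?_ hcC
            exact mul_le_mul_of_nonneg_right h2' (by positivity)
        _ ≤ c0 * C'' * (x ^ 38)⁻¹ := mul_le_mul_of_nonneg_left h5 hcC
    have h7 : 2 * (Q * w) / Q + 1 ≤ 3 * w := by
      have : 2 * (Q * w) / Q = 2 * w := by
        field_simp
      rw [this]
      linarith
    have h8 : C1 * (b * x) * b * (2 * (Q * w) / Q + 1) / (b * Q) ^ θ ≤
        3 * C1 * (x ^ 38)⁻¹ := by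
      have h9 : b * b / b ^ θ = b ^ (2 - θ) := by
        rw [div_eq_iff hbh.ne', ← Real.rpow_add hb0]
        have : (2 - θ + θ : ℝ) = ((2 : ℕ) : ℝ) := by
          push_cast
          ring
        rw [this, Real.rpow_natCast]
        ring
      have hxx : x ≤ x ^ 2 := by nlinarith
      calc C1 * (b * x) * b * (2 * (Q * w) / Q + 1) / (b * Q) ^ θ
          ≤ C1 * (b * x) * b * (3 * w) / (b * Q) ^ θ := by
            refine div_le_div_of_nonneg_right ?_ (Real.rpow_nonneg (by positivity) _)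
            exact mul_le_mul_of_nonneg_left h7 (by positivity)
        _ = 3 * C1 * (((b * b / b ^ θ) / Q ^ θ * w) * x) := by
            rw [Real.mul_rpow hb0.le hQ0.le]
            field_simp
        _ = 3 * C1 * ((b ^ (2 - θ) / Q ^ θ * w) * x) := by rw [h9]
        _ ≤ 3 * C1 * ((x ^ 40)⁻¹ * x ^ 2) := by
            refine mul_le_mul_of_nonneg_left ?_ (by positivity)
            exact mul_le_mul h2 hxx hx0.le (by positivity)
        _ ≤ 3 * C1 * (x ^ 38)⁻¹ := mul_le_mul_of_nonneg_left h5 (by positivity)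
    have h9 : ((1 + c0) * C'' + 3 * C1) * (x ^ 38)⁻¹ ≤ (x ^ 20)⁻¹ := by
      have h10 : ((1 + c0) * C'' + 3 * C1) * (x ^ 38)⁻¹ ≤ x * (x ^ 38)⁻¹ :=
        mul_le_mul_of_nonneg_right (hK3c.trans hxK) (by positivity)
      refine h10.trans ?_
      rw [mul_comm, inv_mul_eq_div, div_le_iff₀ (by positivity), inv_mul_eq_div,
        le_div_iff₀ (by positivity)]
      calc x * x ^ 20 = x ^ 21 := by ring
        _ ≤ x ^ 38 := pow_le_pow_right₀ hx1 (by norm_num)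
    have h11 : ((1 + c0) * C'' + 3 * C1) * (x ^ 38)⁻¹ =
        C'' * (x ^ 38)⁻¹ + (c0 * C'' * (x ^ 38)⁻¹ + 3 * C1 * (x ^ 38)⁻¹) := by ring
    linarith
  refine ⟨?_, ?_, ?_, ?_, ?_⟩
  · -- `4 b ≤ φ`
    have h2 : 4 * K1 * x ≤ x ^ 40 := by
      calc 4 * K1 * x ≤ x * x := mul_le_mul_of_nonneg_right (hK3a.trans hxK) hx0.le
        _ = x ^ 2 := by ring
        _ ≤ x ^ 40 := hx240
    have h3 : 4 * b * (K1 * x) ≤ Q := by
      calc 4 * b * (K1 * x) = b * (4 * K1 * x) := by ring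
        _ ≤ b * x ^ 40 := mul_le_mul_of_nonneg_left h2 hb0.le
        _ ≤ Q := hbx40
    have h5 : 4 * b * (K1 * x) ≤ φ * (K1 * x) := by linarith
    exact le_of_mul_le_mul_right h5 (by positivity)
  · intro a
    have h2 : C1 * x ≤ x ^ 40 := by
      calc C1 * x ≤ x * x := mul_le_mul_of_nonneg_right (hK3b.trans hxK) hx0.le
        _ = x ^ 2 := by ring
        _ ≤ x ^ 40 := hx240
    calc ((Dz q B Z a).card : ℝ) ≤ C1 * (b * x) := hDle a
      _ = b * (C1 * x) := by ring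
      _ ≤ b * x ^ 40 := mul_le_mul_of_nonneg_left h2 hb0.le
      _ ≤ Q := hbx40
  · intro a ha
    set G : Finset (ZMod q)ˣ := univ.filter (fun g => a * g⁻¹ ∈ B) with hGdef
    have hGc : G.card = B.card := by
      refine Finset.card_bij (fun g _ => a * g⁻¹) (fun g hg => (mem_filter.mp hg).2) ?_ ?_
      · intro g _ g' _ h
        simpa using h
      · intro c hc
        refine ⟨c⁻¹ * a, ?_, ?_⟩
        · rw [hGdef, mem_filter]
          refine ⟨mem_univ _, ?_⟩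
          have : a * (c⁻¹ * a)⁻¹ = c := by group
          rw [this]
          exact hc
        · show a * (c⁻¹ * a)⁻¹ = c
          group
    have hcore := A12_core q hq2 θ hθ hθ1 G (by rw [hGc]; exact hBne.card_pos) (fun _ => Dz q B Z a)
      (fun _ d hd => ⟨((Dz_mem q hq2 B Z hZ1 a).2 d hd).1, ((Dz_mem q hq2 B Z hZ1 a).2 d hd).2.1⟩)
      (C1 * (b * x)) (fun _ => hDle a) (Q * w) hUq (q * NN q ε₀) (C'' * x ^ 2) hE Z hZ1
      (by
        intro n hn2 hnq hnc hnG hnZ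
        refine cn_zero_z q B a Z (Q * w) hUq n ?_ hnZ
        unfold Ra
        rw [mem_filter, mem_Icc]
        exact ⟨⟨hn2, by omega⟩, hnc, (mem_filter.mp hnG).2⟩)
    have hfil : (Icc 2 (q * NN q ε₀)).filter (fun n => Nat.Coprime n q ∧ a * (un q n)⁻¹ ∈ B) =
        (Icc 2 (q * NN q ε₀)).filter (fun n => Nat.Coprime n q ∧ un q n ∈ G) := by
      refine filter_congr fun n _ => ?_
      rw [hGdef, mem_filter]
      simp
    rw [hGc, ← hb] at hcore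
    rw [hfil, hx20']
    refine le_trans (le_of_eq ?_) (hcore.trans hnum)
    refine sum_congr rfl fun n _ => ?_
    unfold cw
    rw [hUx]
  · intro a ha
    set G : Finset (ZMod q)ˣ := univ.filter (fun g => a * g ∈ B) with hGdef
    have hGc : G.card = B.card := by
      refine Finset.card_bij (fun g _ => a * g) (fun g hg => (mem_filter.mp hg).2) ?_ ?_
      · intro g _ g' _ h
        simpa using h
      · intro c hc
        refine ⟨a⁻¹ * c, ?_, ?_⟩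
        · rw [hGdef, mem_filter]
          refine ⟨mem_univ _, ?_⟩
          have : a * (a⁻¹ * c) = c := by group
          rw [this]
          exact hc
        · show a * (a⁻¹ * c) = c
          group
    have hcore := A12_core q hq2 θ hθ hθ1 G (by rw [hGc]; exact hBne.card_pos) (fun g => Dz q B Z (a * g))
      (fun g d hd => ⟨((Dz_mem q hq2 B Z hZ1 (a * g)).2 d hd).1,
        ((Dz_mem q hq2 B Z hZ1 (a * g)).2 d hd).2.1⟩)
      (C1 * (b * x)) (fun g => hDle (a * g)) (Q * w) hUq (q * NN q ε₀) (C'' * x ^ 2) hE Z hZ1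
      (by
        intro n hn2 hnq hnc hnG hnZ
        refine cn_zero_z q B (a * un q n) Z (Q * w) hUq n ?_ hnZ
        unfold Ra
        rw [mem_filter, mem_Icc]
        refine ⟨⟨hn2, by omega⟩, hnc, ?_⟩
        rw [mul_inv_cancel_right]
        exact ha)
    have hfil : (Icc 2 (q * NN q ε₀)).filter (fun n => Nat.Coprime n q ∧ a * un q n ∈ B) =
        (Icc 2 (q * NN q ε₀)).filter (fun n => Nat.Coprime n q ∧ un q n ∈ G) := by
      refine filter_congr fun n _ => ?_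
      rw [hGdef, mem_filter]
      simp
    rw [hGc, ← hb] at hcore
    rw [hfil, hx20']
    refine le_trans (le_of_eq ?_) (hcore.trans hnum)
    refine sum_congr rfl fun n _ => ?_
    unfold cw
    rw [hUx]
  · intro a
    have h2 := sum_cn θ (by linarith) hθ1 (Dz q B Z a)
      (fun d hd => ((Dz_mem q hq2 B Z hZ1 a).2 d hd).1) (Q * w) hU1 (q * NN q ε₀)
    have h3 : WW q θ ε₀ B a ≤ 2 / (1 - θ) ^ 2 * (((Dz q B Z a).card : ℝ) * (Q * w)) ^
        (1 - θ) := by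
      unfold WW cw
      rw [hUx]
      exact h2
    refine h3.trans ?_
    rw [hw10]
    have h6 : ((Dz q B Z a).card : ℝ) * (Q * w) ≤ (C1 * w ^ 2) * (b * Q) := by
      calc ((Dz q B Z a).card : ℝ) * (Q * w) ≤ C1 * (b * x) * (Q * w) :=
            mul_le_mul_of_nonneg_right (hDle a) (by positivity)
        _ ≤ C1 * (b * w) * (Q * w) := by
            refine mul_le_mul_of_nonneg_right ?_ (by positivity)
            refine mul_le_mul_of_nonneg_left ?_ (by linarith)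
            exact mul_le_mul_of_nonneg_left hxw hb0.le
        _ = (C1 * w ^ 2) * (b * Q) := by ring
    have h7 : 1 ≤ C1 * w ^ 2 := one_le_mul_of_one_le_of_one_le (by linarith) (one_le_pow₀ hw1)
    have h8 : (((Dz q B Z a).card : ℝ) * (Q * w)) ^ (1 - θ) ≤
        C1 * w ^ 2 * (b * Q) ^ (1 - θ) := by
      calc (((Dz q B Z a).card : ℝ) * (Q * w)) ^ (1 - θ)
          ≤ ((C1 * w ^ 2) * (b * Q)) ^ (1 - θ) :=
            Real.rpow_le_rpow (by positivity) h6 h1θ.le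
        _ = (C1 * w ^ 2) ^ (1 - θ) * (b * Q) ^ (1 - θ) := by
            rw [Real.mul_rpow (by positivity) (by positivity)]
        _ ≤ (C1 * w ^ 2) ^ (1 : ℝ) * (b * Q) ^ (1 - θ) := by
            refine mul_le_mul_of_nonneg_right ?_ (Real.rpow_nonneg (by positivity) _)
            exact Real.rpow_le_rpow_of_exponent_le h7 (by linarith)
        _ = C1 * w ^ 2 * (b * Q) ^ (1 - θ) := by rw [Real.rpow_one]
    have h9 : w ^ 2 ≤ w ^ 10 := pow_le_pow_right₀ hw1 (by norm_num)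
    have h10 : 0 ≤ (b * Q) ^ (1 - θ) := Real.rpow_nonneg (by positivity) _
    calc 2 / (1 - θ) ^ 2 * (((Dz q B Z a).card : ℝ) * (Q * w)) ^ (1 - θ)
        ≤ 2 / (1 - θ) ^ 2 * (C1 * w ^ 2 * (b * Q) ^ (1 - θ)) :=
          mul_le_mul_of_nonneg_left h8 (by linarith)
      _ = 2 / (1 - θ) ^ 2 * C1 * (b * Q) ^ (1 - θ) * w ^ 2 := by ring
      _ ≤ 2 / (1 - θ) ^ 2 * C1 * (b * Q) ^ (1 - θ) * w ^ 10 :=
          mul_le_mul_of_nonneg_left h9 (by positivity)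

end Pool.Agent.MW
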