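import Mathlib
import Pool.Agent.Lib.MP_9cfc0a_nt.Mg.G023
import Pool.Agent.Lib.MP_9cfc0a_nt.Mg.G035
import Pool.Agent.Lib.MP_9cfc0a_nt.Mg.G036

set_option autoImplicit false

namespace Pool.Agent.MW

open Complex Finset MY MZ

/-- A8. The majorant (as `MZ.K4`). -/
lemma maj (θ e : ℝ) (hθ : 1 / 2 ≤ θ) (hθ1 : θ < 1) (he : 0 < e) (he1 : e ≤ 1 / 10) :
    ∃ (C Z₁ : ℝ), 1 ≤ C ∧ 1 ≤ Z₁ ∧
    ∀ (q : ℕ) [NeZero q] (Z δ M₀ : ℝ), Z₁ ≤ Z → 0 ≤ δ → 0 ≤ M₀ →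
    (∀ χ : DirichletCharacter ℂ q, χ ≠ 1 →
      ∀ z ∈ Metric.closedBall ((θ + 2 * δ + 1 / e : ℝ) : ℂ) (1 / e), ‖χ.LFunction z‖ ≤ M₀) →
    ∀ (B : Finset (ZMod q)ˣ) (h : (ZMod q)ˣ → ℝ), (∀ c, 0 ≤ h c) →
    ∑ a ∈ B, (∑ d ∈ (Icc 1 ⌊Z⌋₊).filter (fun d => Nat.Coprime d q),
        (d : ℝ) ^ (-θ) * h (a * (un q d)⁻¹)) ^ 2
      ≤ Z ^ (4 * δ) * (2 * (B.card * (C * Z ^ (1 - θ + 3 * e)) ^ 2 / q.totient
          + (2 * (JJ e Z + 1) * M₀ + 1) ^ 2)) * ∑ c, (h c) ^ 2 := by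
  classical
  obtain ⟨C, hC1, hC⟩ := Pool.Agent.MW.kap_sum θ e hθ hθ1 he he1
  obtain ⟨Z₁, hZ₁, hK⟩ := kap_ge e he he1
  refine ⟨C, Z₁, hC1, hZ₁, ?_⟩
  intro q _ Z δ M₀ hZ hδ hM₀ hL B h hh
  have hZ1 : 1 ≤ Z := hZ₁.trans hZ
  have hZ0 : 0 < Z := by linarith
  set σ : ℝ := θ + 2 * δ with hσ
  have hσθ : θ ≤ σ := by rw [hσ]; linarith
  have hσ1 : 1 / 2 ≤ σ := hθ.trans hσθ
  obtain ⟨M₁, hM₁⟩ := kap_char e he he1 q Z σ M₀ hZ1 hσ1 hL
  set M : ℕ := max M₁ ⌊Z⌋₊ with hM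
  have hMM : M₁ ≤ M := le_max_left _ _
  have hMZ : ⌊Z⌋₊ ≤ M := le_max_right _ _
  set Λ : ℝ := 2 * (JJ e Z + 1) * M₀ + 1 with hΛ
  have hΛ0 : 0 ≤ Λ := by rw [hΛ]; positivity
  set w : ℕ → ℝ := fun d => (d : ℝ) ^ (-σ) * kap e Z d with hw
  have hw0 : ∀ d ∈ Icc 1 M, 0 ≤ w d := by
    intro d hd
    exact mul_nonneg (by positivity) (kap_nonneg e he Z d (mem_Icc.mp hd).1)
  -- the number of classes
  have hφ : (Fintype.card (ZMod q)ˣ : ℝ) = (q.totient : ℝ) := by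
    rw [ZMod.card_units_eq_totient]
  have hφ0 : (0 : ℝ) < q.totient := by
    exact_mod_cast Nat.totient_pos.mpr (Nat.pos_of_ne_zero (NeZero.ne q))
  set m : ℝ := (∑ c, h c) / (q.totient : ℝ) with hm
  have hm0 : 0 ≤ m := div_nonneg (sum_nonneg fun c _ => hh c) hφ0.le
  set H : ℝ := ∑ c, (h c) ^ 2 with hH
  have hH0 : 0 ≤ H := sum_nonneg fun c _ => sq_nonneg _
  have hCS : (∑ c, h c) ^ 2 ≤ (q.totient : ℝ) * H := by
    have := sq_sum_le_card_mul_sum_sq (s := (univ : Finset (ZMod q)ˣ)) (f := h)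
    rw [card_univ, hφ] at this
    exact this
  have hm2 : m ^ 2 ≤ H / q.totient := by
    rw [hm, div_pow, div_le_div_iff₀ (by positivity) hφ0]
    nlinarith
  set h0 : (ZMod q)ˣ → ℝ := fun c => h c - m with hh0
  have hsum0 : ∑ c, h0 c = 0 := by
    rw [hh0, sum_sub_distrib, sum_const, card_univ, nsmul_eq_mul, hφ, hm]
    field_simp
    ring
  have hsq0 : ∑ c, (h0 c) ^ 2 ≤ H := by
    have e1 : ∑ c, (h0 c) ^ 2 = H - 2 * m * (∑ c, h c) + (q.totient : ℝ) * m ^ 2 := by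
      rw [hh0]
      have : ∀ c : (ZMod q)ˣ, (h c - m) ^ 2 = (h c) ^ 2 - 2 * m * h c + m ^ 2 := by
        intro c; ring
      rw [sum_congr rfl fun c _ => this c, sum_add_distrib, sum_sub_distrib, ← mul_sum, sum_const,
        card_univ, nsmul_eq_mul, hφ]
    have e2 : (∑ c, h c) = (q.totient : ℝ) * m := by
      rw [hm]; field_simp
    rw [e1, e2]
    nlinarith [sq_nonneg m]
  -- the sums with the Poisson weights
  set S : (ZMod q)ˣ → ℝ := fun a => ∑ d ∈ (Icc 1 M).filter (fun d => Nat.Coprime d q),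
    w d * h (a * (un q d)⁻¹) with hS
  set S0 : (ZMod q)ˣ → ℝ := fun a => ∑ d ∈ (Icc 1 M).filter (fun d => Nat.Coprime d q),
    w d * h0 (a * (un q d)⁻¹) with hS0
  set W : ℝ := ∑ d ∈ (Icc 1 M).filter (fun d => Nat.Coprime d q), w d with hW
  have hW0 : 0 ≤ W := sum_nonneg fun d hd => hw0 d (mem_filter.mp hd).1
  have hWC : W ≤ C * Z ^ (1 - θ + 3 * e) := by
    refine le_trans ?_ (hC Z hZ1 σ hσθ M)
    exact sum_le_sum_of_subset_of_nonneg (filter_subset _ _) fun d hd _ => hw0 d hd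
  have hSeq : ∀ a, S a = m * W + S0 a := by
    intro a
    rw [hS, hS0, hW, hh0]
    simp only
    rw [mul_sum, ← sum_add_distrib]
    apply sum_congr rfl
    intro d _
    ring
  have hterm : ∀ a, ∑ d ∈ (Icc 1 ⌊Z⌋₊).filter (fun d => Nat.Coprime d q),
      (d : ℝ) ^ (-θ) * h (a * (un q d)⁻¹) ≤ Z ^ (2 * δ) * S a := by
    intro a
    rw [hS, mul_sum]
    refine le_trans ?_ (sum_le_sum_of_subset_of_nonneg (s := (Icc 1 ⌊Z⌋₊).filter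
      (fun d => Nat.Coprime d q)) (filter_subset_filter _ (Icc_subset_Icc le_rfl hMZ)) ?_)
    · apply sum_le_sum
      intro d hd
      obtain ⟨hd1, -⟩ := mem_filter.mp hd
      obtain ⟨hd1, hd2⟩ := mem_Icc.mp hd1
      have hd1' : (1 : ℝ) ≤ d := by exact_mod_cast hd1
      have hd0 : (0 : ℝ) < d := by linarith
      have hdZ : (d : ℝ) ≤ Z := (Nat.le_floor_iff hZ0.le).mp hd2
      have hk := hK Z hZ d hd1 hdZ
      have e1 : (d : ℝ) ^ (-θ) = (d : ℝ) ^ (2 * δ) * (d : ℝ) ^ (-σ) := by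
        rw [← Real.rpow_add hd0, hσ]
        congr 1
        ring
      have e2 : (d : ℝ) ^ (2 * δ) ≤ Z ^ (2 * δ) :=
        Real.rpow_le_rpow hd0.le hdZ (by linarith)
      rw [e1, hw]
      simp only
      have hp : 0 ≤ (d : ℝ) ^ (-σ) := by positivity
      have hq2 : 0 ≤ (d : ℝ) ^ (2 * δ) := by positivity
      have hhc := hh (a * (un q d)⁻¹)
      calc (d : ℝ) ^ (2 * δ) * (d : ℝ) ^ (-σ) * h (a * (un q d)⁻¹)
          ≤ Z ^ (2 * δ) * ((d : ℝ) ^ (-σ) * 1) * h (a * (un q d)⁻¹) := by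
            rw [mul_one]; gcongr
        _ ≤ Z ^ (2 * δ) * ((d : ℝ) ^ (-σ) * kap e Z d) * h (a * (un q d)⁻¹) := by
            gcongr
        _ = Z ^ (2 * δ) * ((d : ℝ) ^ (-σ) * kap e Z d * h (a * (un q d)⁻¹)) := by ring
    · intro d hd _
      exact mul_nonneg (by positivity) (mul_nonneg (hw0 d (mem_filter.mp hd).1) (hh _))
  have hS0bd : ∑ a, (S0 a) ^ 2 ≤ Λ ^ 2 * H := by
    have hk := mul_bound q (Icc 1 M) (fun d => ((w d : ℝ) : ℂ)) (fun c => ((h0 c : ℝ) : ℂ))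
      (by rw [← Complex.ofReal_sum, hsum0, Complex.ofReal_zero]) Λ hΛ0
      (fun χ hχ => by
        have := hM₁ M hMM χ hχ
        rw [hΛ]
        exact this)
    have e1 : ∀ c, ‖∑ m ∈ (Icc 1 M).filter (fun m => Nat.Coprime m q),
        ((w m : ℝ) : ℂ) * ((h0 (c * (un q m)⁻¹) : ℝ) : ℂ)‖ ^ 2 = (S0 c) ^ 2 := by
      intro c
      have : ∑ m ∈ (Icc 1 M).filter (fun m => Nat.Coprime m q),
        ((w m : ℝ) : ℂ) * ((h0 (c * (un q m)⁻¹) : ℝ) : ℂ) = ((S0 c : ℝ) : ℂ) := by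
        rw [hS0]
        push_cast
        rfl
      rw [this, Complex.norm_real, Real.norm_eq_abs, sq_abs]
    have e2 : ∀ c, ‖((h0 c : ℝ) : ℂ)‖ ^ 2 = (h0 c) ^ 2 := by
      intro c
      rw [Complex.norm_real, Real.norm_eq_abs, sq_abs]
    rw [sum_congr rfl fun c _ => e1 c, sum_congr rfl fun c _ => e2 c] at hk
    refine hk.trans ?_
    gcongr
  have hZ2 : (0 : ℝ) ≤ Z ^ (2 * δ) := by positivity
  have hZ4 : (Z ^ (2 * δ)) ^ 2 = Z ^ (4 * δ) := by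
    rw [← Real.rpow_natCast, ← Real.rpow_mul hZ0.le]
    congr 1
    push_cast
    ring
  calc ∑ a ∈ B, (∑ d ∈ (Icc 1 ⌊Z⌋₊).filter (fun d => Nat.Coprime d q),
        (d : ℝ) ^ (-θ) * h (a * (un q d)⁻¹)) ^ 2
      ≤ ∑ a ∈ B, (Z ^ (2 * δ) * S a) ^ 2 := by
        apply sum_le_sum
        intro a _
        have hn : 0 ≤ ∑ d ∈ (Icc 1 ⌊Z⌋₊).filter (fun d => Nat.Coprime d q),
            (d : ℝ) ^ (-θ) * h (a * (un q d)⁻¹) :=
          sum_nonneg fun d _ => mul_nonneg (by positivity) (hh _)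
        exact pow_le_pow_left₀ hn (hterm a) 2
    _ ≤ ∑ a ∈ B, Z ^ (4 * δ) * (2 * (m ^ 2 * (C * Z ^ (1 - θ + 3 * e)) ^ 2) + 2 * (S0 a) ^ 2) := by
        apply sum_le_sum
        intro a _
        rw [mul_pow, hZ4, hSeq a]
        apply mul_le_mul_of_nonneg_left _ (by positivity)
        have h1 : (m * W + S0 a) ^ 2 ≤ 2 * (m * W) ^ 2 + 2 * (S0 a) ^ 2 := by
          nlinarith [sq_nonneg (m * W - S0 a)]
        have h2 : (m * W) ^ 2 ≤ m ^ 2 * (C * Z ^ (1 - θ + 3 * e)) ^ 2 := by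
          rw [mul_pow]
          gcongr
        linarith
    _ = Z ^ (4 * δ) * (2 * (B.card * (m ^ 2 * (C * Z ^ (1 - θ + 3 * e)) ^ 2)) +
          2 * ∑ a ∈ B, (S0 a) ^ 2) := by
        rw [← mul_sum, sum_add_distrib, sum_const, nsmul_eq_mul, ← mul_sum]
        ring
    _ ≤ Z ^ (4 * δ) * (2 * (B.card * (H / q.totient * (C * Z ^ (1 - θ + 3 * e)) ^ 2)) +
          2 * (Λ ^ 2 * H)) := by
        have h3 : ∑ a ∈ B, (S0 a) ^ 2 ≤ Λ ^ 2 * H :=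
          (sum_le_sum_of_subset_of_nonneg (subset_univ B) fun _ _ _ => sq_nonneg _).trans hS0bd
        gcongr
    _ = Z ^ (4 * δ) * (2 * (B.card * (C * Z ^ (1 - θ + 3 * e)) ^ 2 / q.totient
          + Λ ^ 2)) * H := by
        ring

end Pool.Agent.MW
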