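import Mathlib
import Pool.Agent.Lib.MP_9cfc0a_nt.Mg.G023
import Pool.Agent.Lib.MP_9cfc0a_nt.MY.L1
import Pool.Agent.Lib.MP_9cfc0a_nt.MY.L2
import Pool.Agent.Lib.MP_9cfc0a_nt.Mg.G029
import Pool.Agent.Lib.MP_9cfc0a_nt.Mg.G033

set_option autoImplicit false

namespace Pool.Agent.MW

open Complex Finset MY MZ

/-- `MY.window_gen` for `r < 7 / 4`, with a constant which does not depend on `ε`. -/
lemma A21_window : ∃ C : ℝ, 1 ≤ C ∧ ∀ ε : ℝ, 0 < ε → ∃ (L m₀ : ℕ), 1 ≤ L ∧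
    ∀ (f : ℂ → ℂ), Differentiable ℂ f → ∀ (s : ℂ) (T : ℝ), 1 ≤ T →
    (∀ z ∈ Metric.closedBall s (39 / 20), ‖f z‖ ≤ Real.exp T) → Real.exp (-T) ≤ ‖f s‖ →
    ∀ ρ₀ : ℂ, f ρ₀ = 0 → ∀ r : ℝ, ‖s - ρ₀‖ ≤ r → r < 7 / 4 → ∀ m : ℕ, m₀ ≤ m → C * T + 1 ≤ m →
      ∃ k : ℕ, m ≤ k + 1 ∧ k ≤ L * m ∧
      Real.exp (-(ε * m)) ≤ r ^ (k + 1) * (‖TC (logDeriv f) s k‖ + C * T * (10 / 17 : ℝ) ^ k) := by
  classical
  obtain ⟨C, hC1, hloc⟩ := EM.local_zeros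
  refine ⟨C, hC1, fun ε hε => ?_⟩
  obtain ⟨L, m₀, hturan⟩ := EM.turan_window ε 1 hε one_pos
  refine ⟨max L 1, m₀, le_max_right _ _,
    fun f hf s T hT1 hb hc ρ₀ hρ r hr hr1 m hm0 hmT => ?_⟩
  have hs : f s ≠ 0 := by
    intro h
    rw [h, norm_zero] at hc
    exact absurd hc (not_le.mpr (Real.exp_pos _))
  have hana : AnalyticOnNhd ℂ f (Metric.closedBall s (39 / 20)) := fun z _ =>
    hf.analyticAt z
  obtain ⟨n, ρ, hn, hρz, hall, hcoef⟩ := hloc f s T hT1 hana hb hc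
  have hmem : ρ₀ ∈ Metric.closedBall s (7 / 4) := by
    rw [Metric.mem_closedBall, dist_comm, dist_eq_norm]
    linarith
  obtain ⟨j0, hj0⟩ := hall ρ₀ hmem hρ
  obtain ⟨js, _, hjs⟩ := Finset.exists_min_image (Finset.univ : Finset (Fin n))
    (fun j => ‖s - ρ j‖) ⟨j0, Finset.mem_univ _⟩
  have hne : ∀ j, s - ρ j ≠ 0 := by
    intro j h
    apply hs
    rw [sub_eq_zero.mp h]
    exact hρz j
  have hδ : ‖s - ρ js‖ ≤ r := le_trans (hjs j0 (Finset.mem_univ _)) (by rw [hj0]; exact hr)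
  have hδ0 : 0 < ‖s - ρ js‖ := norm_pos_iff.mpr (hne js)
  have hm1R : (n : ℝ) + 1 ≤ m := by linarith
  have hm1 : 1 ≤ m := by
    have h1 : (0 : ℝ) ≤ n := Nat.cast_nonneg _
    have h2 : (1 : ℝ) ≤ m := by linarith
    exact_mod_cast h2
  obtain ⟨k', hk1, hk2, hk3⟩ := hturan m hm0 (Fin n) (fun j => (s - ρ j) / (s - ρ js))
    (by
      rw [Fintype.card_fin]
      linarith)
    (by
      intro j
      rw [norm_div, le_div_iff₀ hδ0, one_mul]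
      exact hjs j (Finset.mem_univ _))
    ⟨js, div_self (hne js)⟩
  obtain ⟨k, rfl⟩ : ∃ k, k' = k + 1 := ⟨k' - 1, by omega⟩
  refine ⟨k, hk1, ?_, ?_⟩
  · calc k ≤ k + 1 := Nat.le_succ k
      _ ≤ L * m := hk2
      _ ≤ max L 1 * m := Nat.mul_le_mul_right m (le_max_left _ _)
  · have hsum : ∑ j, (((s - ρ j) / (s - ρ js))⁻¹) ^ (k + 1)
        = (s - ρ js) ^ (k + 1) * ∑ j, ((s - ρ j)⁻¹) ^ (k + 1) := by
      rw [Finset.mul_sum]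
      refine Finset.sum_congr rfl fun j _ => ?_
      rw [inv_div, div_eq_mul_inv, mul_pow]
    rw [hsum, norm_mul, norm_pow] at hk3
    have hco := hcoef k
    have h1 : ‖∑ j, ((s - ρ j)⁻¹) ^ (k + 1)‖ ≤
        ‖TC (logDeriv f) s k‖ + C * T * (10 / 17 : ℝ) ^ k := by
      have h2 : ‖∑ j, ((s - ρ j)⁻¹) ^ (k + 1)‖
          = ‖(-1 : ℂ) ^ k * ∑ j, ((s - ρ j)⁻¹) ^ (k + 1)‖ := by
        rw [norm_mul, norm_pow, norm_neg, norm_one, one_pow, one_mul]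
      rw [h2]
      have h3 := norm_sub_norm_le
        ((-1 : ℂ) ^ k * ∑ j, ((s - ρ j)⁻¹) ^ (k + 1)) (TC (logDeriv f) s k)
      have h4 : ‖(-1 : ℂ) ^ k * ∑ j, ((s - ρ j)⁻¹) ^ (k + 1) - TC (logDeriv f) s k‖
          ≤ C * T * (10 / 17 : ℝ) ^ k := by
        rw [norm_sub_rev]
        exact hco
      linarith
    have hT0 : 0 ≤ ‖TC (logDeriv f) s k‖ + C * T * (10 / 17 : ℝ) ^ k :=
      le_trans (norm_nonneg _) h1
    calc Real.exp (-(ε * m)) ≤ ‖s - ρ js‖ ^ (k + 1) * ‖∑ j, ((s - ρ j)⁻¹) ^ (k + 1)‖ := hk3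
      _ ≤ ‖s - ρ js‖ ^ (k + 1) * (‖TC (logDeriv f) s k‖ + C * T * (10 / 17 : ℝ) ^ k) :=
          mul_le_mul_of_nonneg_left h1 (pow_nonneg hδ0.le _)
      _ ≤ r ^ (k + 1) * (‖TC (logDeriv f) s k‖ + C * T * (10 / 17 : ℝ) ^ k) :=
          mul_le_mul_of_nonneg_right (pow_le_pow_left₀ hδ0.le hδ _) hT0

lemma A21_norm_TC (q : ℕ) [NeZero q] (χ : DirichletCharacter ℂ q) (s : ℂ) (k : ℕ) :
    ‖TC (fun z => -logDeriv χ.LFunction z) s k‖ = ‖TC (logDeriv χ.LFunction) s k‖ := by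
  unfold TC
  have h : iteratedDeriv k (fun z => -logDeriv χ.LFunction z) s
      = -iteratedDeriv k (logDeriv χ.LFunction) s := iteratedDeriv_fun_neg k _ s
  rw [h, neg_div, norm_neg]

/-- The distance of the zero. -/
lemma A21_dist (θ ℓ : ℝ) (hθ1 : θ < 1) (hℓ : 10 ≤ ℓ) (s ρ : ℂ)
    (hs : s.re = 2) (him : |s.im - ρ.im| ≤ 1 / ℓ) (h1 : θ ≤ ρ.re) (h2 : ρ.re < 1) :
    ‖s - ρ‖ ≤ (2 - θ) * (1 + 1 / ℓ ^ 2) := by
  have hℓ0 : 0 < ℓ := by linarith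
  have h3 : ‖s - ρ‖ ^ 2 = (2 - ρ.re) * (2 - ρ.re) + (s.im - ρ.im) * (s.im - ρ.im) := by
    rw [← Complex.normSq_eq_norm_sq, Complex.normSq_apply, Complex.sub_re, Complex.sub_im, hs]
  have h4 : (s.im - ρ.im) * (s.im - ρ.im) ≤ 1 / ℓ ^ 2 := by
    rw [← sq, ← sq_abs]
    calc |s.im - ρ.im| ^ 2 ≤ (1 / ℓ) ^ 2 := by gcongr
      _ = 1 / ℓ ^ 2 := by rw [div_pow, one_pow]
  have h5 : (2 - ρ.re) * (2 - ρ.re) ≤ (2 - θ) * (2 - θ) := by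
    apply mul_le_mul <;> linarith
  have h6 : 0 ≤ 1 / ℓ ^ 2 := by positivity
  have h7 : 1 ≤ (2 - θ) * (2 - θ) := by nlinarith only [hθ1]
  have h8 : ‖s - ρ‖ ^ 2 ≤ ((2 - θ) * (1 + 1 / ℓ ^ 2)) ^ 2 := by
    rw [h3]
    have e : ((2 - θ) * (1 + 1 / ℓ ^ 2)) ^ 2 = (2 - θ) * (2 - θ) +
        (2 - θ) * (2 - θ) * (2 * (1 / ℓ ^ 2) + (1 / ℓ ^ 2) ^ 2) := by ring
    rw [e]
    have h9 : 1 / ℓ ^ 2 ≤ 2 * (1 / ℓ ^ 2) + (1 / ℓ ^ 2) ^ 2 := by nlinarith only [h6]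
    have h10 : 1 / ℓ ^ 2 ≤ (2 - θ) * (2 - θ) * (2 * (1 / ℓ ^ 2) + (1 / ℓ ^ 2) ^ 2) := by
      calc 1 / ℓ ^ 2 ≤ 2 * (1 / ℓ ^ 2) + (1 / ℓ ^ 2) ^ 2 := h9
        _ = 1 * (2 * (1 / ℓ ^ 2) + (1 / ℓ ^ 2) ^ 2) := (one_mul _).symm
        _ ≤ _ := mul_le_mul_of_nonneg_right h7 (by positivity)
    linarith
  exact le_of_sq_le_sq h8 (by
    have : 0 < 2 - θ := by linarith
    positivity)

/-- The powers of the radius. -/
lemma A21_pow (θ ℓ c : ℝ) (k : ℕ) (hθ1 : θ < 1) (hℓ : 10 ≤ ℓ) (hk : (k : ℝ) + 1 ≤ c * ℓ)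
    (hc : 2 * c ≤ ℓ) :
    ((2 - θ) * (1 + 1 / ℓ ^ 2)) ^ (k + 1) ≤ 2 * (2 - θ) ^ (k + 1) := by
  have hℓ0 : 0 < ℓ := by linarith
  have h2 : 0 < 2 - θ := by linarith
  rw [mul_pow, mul_comm]
  refine mul_le_mul_of_nonneg_right ?_ (by positivity)
  calc (1 + 1 / ℓ ^ 2) ^ (k + 1) ≤ (Real.exp (1 / ℓ ^ 2)) ^ (k + 1) := by
        gcongr
        have := Real.add_one_le_exp (1 / ℓ ^ 2)
        linarith
    _ = Real.exp (((k + 1 : ℕ) : ℝ) * (1 / ℓ ^ 2)) := by rw [← Real.exp_nat_mul]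
    _ ≤ Real.exp (1 / 2) := by
        rw [Real.exp_le_exp, mul_one_div, div_le_iff₀ (by positivity)]
        push_cast
        nlinarith only [hk, hc, hℓ0]
    _ ≤ 2 := by
        have h1 : Real.exp (1 / 2) ^ 2 = Real.exp 1 := by
          rw [← Real.exp_nat_mul]; norm_num
        nlinarith only [h1, Real.exp_one_lt_d9, Real.exp_pos (1 / 2)]

/-- The other zeros are negligible. -/
lemma A21_err (C ε ℓ l r : ℝ) (k m : ℕ) (hC : 1 ≤ C) (hε : ε ≤ 1 / 20) (hl : l ≤ ℓ) (hl0 : 0 ≤ l)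
    (hr0 : 0 < r) (hr : r ≤ 303 / 200) (hm : 12 * ℓ ≤ m) (hk : m ≤ k + 1)
    (hX : 8 * C * ℓ ≤ Real.exp (1 / 2 * ℓ)) :
    r ^ (k + 1) * (C * (2 * l) * (10 / 17 : ℝ) ^ k) ≤ 1 / 2 * Real.exp (-(ε * m)) := by
  have hℓ0 : 0 ≤ ℓ := hl0.trans hl
  have h1 : r ^ (k + 1) * (10 / 17 : ℝ) ^ k ≤ 2 * (9 / 10 : ℝ) ^ m := by
    have e1 : r ^ (k + 1) * (10 / 17 : ℝ) ^ k = 17 / 10 * (r * (10 / 17)) ^ (k + 1) := by
      rw [mul_pow, pow_succ (10 / 17 : ℝ)]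
      ring
    have e2 : (r * (10 / 17)) ^ (k + 1) ≤ (9 / 10 : ℝ) ^ (k + 1) :=
      pow_le_pow_left₀ (by positivity) (by linarith) _
    have e3 : (9 / 10 : ℝ) ^ (k + 1) ≤ (9 / 10 : ℝ) ^ m :=
      pow_le_pow_of_le_one (by norm_num) (by norm_num) hk
    have e4 : (0 : ℝ) ≤ (9 / 10 : ℝ) ^ m := by positivity
    rw [e1]
    linarith
  have h2 : (9 / 10 : ℝ) ^ m ≤ Real.exp (-(m / 10)) := by
    have e1 : (9 / 10 : ℝ) ≤ Real.exp (-(1 / 10)) := by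
      have := Real.add_one_le_exp (-(1 / 10 : ℝ))
      linarith
    calc (9 / 10 : ℝ) ^ m ≤ Real.exp (-(1 / 10)) ^ m := pow_le_pow_left₀ (by norm_num) e1 _
      _ = Real.exp (-(m / 10)) := by
        rw [← Real.exp_nat_mul]
        congr 1
        ring
  have h3 : Real.exp (-((m : ℝ) / 10)) ≤ Real.exp (-(ε * m)) * Real.exp (-(1 / 2 * ℓ)) := by
    rw [← Real.exp_add, Real.exp_le_exp]
    have e1 : ε * m ≤ 1 / 20 * m := mul_le_mul_of_nonneg_right hε (Nat.cast_nonneg _)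
    linarith
  have h4 : 8 * C * ℓ * Real.exp (-(1 / 2 * ℓ)) ≤ 1 := by
    calc 8 * C * ℓ * Real.exp (-(1 / 2 * ℓ)) ≤ Real.exp (1 / 2 * ℓ) * Real.exp (-(1 / 2 * ℓ)) :=
          mul_le_mul_of_nonneg_right hX (Real.exp_pos _).le
      _ = 1 := by rw [← Real.exp_add]; simp
  have hC0 : 0 ≤ C := by linarith
  have hE : 0 ≤ Real.exp (-(ε * m)) := (Real.exp_pos _).le
  have h5 : r ^ (k + 1) * (10 / 17 : ℝ) ^ k ≤
      2 * (Real.exp (-(ε * m)) * Real.exp (-(1 / 2 * ℓ))) := by linarith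
  calc r ^ (k + 1) * (C * (2 * l) * (10 / 17 : ℝ) ^ k)
      = C * (2 * l) * (r ^ (k + 1) * (10 / 17 : ℝ) ^ k) := by ring
    _ ≤ C * (2 * ℓ) * (2 * (Real.exp (-(ε * m)) * Real.exp (-(1 / 2 * ℓ)))) := by gcongr
    _ = 1 / 2 * Real.exp (-(ε * m)) * (8 * C * ℓ * Real.exp (-(1 / 2 * ℓ))) := by ring
    _ ≤ 1 / 2 * Real.exp (-(ε * m)) * 1 := by gcongr
    _ = _ := mul_one _

/-- The window for one character. -/
lemma A21_one (C : ℝ) (hC : 1 ≤ C) (ε : ℝ) (hε : ε ≤ 1 / 20) (L m₀ : ℕ)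
    (hwin : ∀ (f : ℂ → ℂ), Differentiable ℂ f → ∀ (s : ℂ) (T : ℝ), 1 ≤ T →
      (∀ z ∈ Metric.closedBall s (39 / 20), ‖f z‖ ≤ Real.exp T) → Real.exp (-T) ≤ ‖f s‖ →
      ∀ ρ₀ : ℂ, f ρ₀ = 0 → ∀ r : ℝ, ‖s - ρ₀‖ ≤ r → r < 7 / 4 → ∀ m : ℕ, m₀ ≤ m → C * T + 1 ≤ m →
        ∃ k : ℕ, m ≤ k + 1 ∧ k ≤ L * m ∧
        Real.exp (-(ε * m)) ≤ r ^ (k + 1) * (‖TC (logDeriv f) s k‖ + C * T * (10 / 17 : ℝ) ^ k))
    (θ J' ℓ T : ℝ) (hθ : 1 / 2 ≤ θ) (hθ1 : θ < 1) (hJ' : 12 ≤ J') (hJC : 2 * C + 1 ≤ J')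
    (_hT : 0 ≤ T) (q : ℕ) [NeZero q] (χ : DirichletCharacter ℂ q) (hχ : χ ≠ 1)
    (hq : 1681 ≤ (q : ℝ)) (hqℓ : Real.log q ≤ ℓ) (hl10 : 10 ≤ Real.log q)
    (hTq : T + 6 ≤ (q : ℝ) ^ (1 / 4 : ℝ)) (hm₀ : (m₀ : ℝ) ≤ Real.log q)
    (hX : 8 * C * ℓ ≤ Real.exp (1 / 2 * ℓ)) (hcL : 2 * (3 * L * J') ≤ ℓ) (hL : 1 ≤ L) (m : ℕ)
    (hm : m = ⌈J' * ℓ⌉₊ + 1) (ρ : ℂ) (hρ1 : θ ≤ ρ.re) (hρ2 : ρ.re < 1) (hρT : |ρ.im| ≤ T)
    (hρ0 : χ.LFunction ρ = 0) (s : ℂ) (hs : s.re = 2) (him : |s.im - ρ.im| ≤ 1 / ℓ) :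
    ∃ k : ℕ, m ≤ k + 1 ∧ k ≤ L * m ∧
      1 / 6 * Real.exp (-(ε * m)) ≤ ‖TC (fun z => -logDeriv χ.LFunction z) s k‖ * (2 - θ) ^ k := by
  have hℓ10 : 10 ≤ ℓ := hl10.trans hqℓ
  have hℓ0 : 0 < ℓ := by linarith
  have hq0 : (0 : ℝ) < q := by linarith
  have hLR : (1 : ℝ) ≤ L := by exact_mod_cast hL
  have hJℓ0 : 0 ≤ J' * ℓ := by positivity
  have hm1 : J' * ℓ + 1 ≤ m := by
    rw [hm]
    push_cast
    linarith [Nat.le_ceil (J' * ℓ)]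
  have hm2 : (m : ℝ) ≤ J' * ℓ + 2 := by
    rw [hm]
    push_cast
    linarith [(Nat.ceil_lt_add_one hJℓ0).le]
  have hJℓ : 12 * ℓ ≤ J' * ℓ := mul_le_mul_of_nonneg_right hJ' hℓ0.le
  have hmm₀ : m₀ ≤ m := by
    have h1 : (m₀ : ℝ) ≤ m := by linarith
    exact_mod_cast h1
  obtain ⟨l, hl⟩ : ∃ l : ℝ, l = Real.log q := ⟨_, rfl⟩
  rw [← hl] at hqℓ hl10 hm₀
  have hmC : C * (2 * l) + 1 ≤ m := by
    have h1 : C * (2 * l) ≤ C * (2 * ℓ) := by gcongr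
    have h2 : (2 * C + 1) * ℓ ≤ J' * ℓ := mul_le_mul_of_nonneg_right hJC hℓ0.le
    have h3 : (2 * C + 1) * ℓ = C * (2 * ℓ) + ℓ := by ring
    linarith
  obtain ⟨r₂, hr₂⟩ : ∃ r₂ : ℝ, r₂ = (q : ℝ) ^ (1 / 2 : ℝ) := ⟨_, rfl⟩
  have hr₂0 : 0 ≤ r₂ := by rw [hr₂]; positivity
  have hr₂2 : r₂ * r₂ = q := by
    rw [hr₂, ← Real.rpow_add hq0]
    norm_num
  have hr₂41 : 41 ≤ r₂ := by
    have h3 : (41 : ℝ) ^ 2 ≤ r₂ ^ 2 := by
      rw [pow_two r₂, hr₂2]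
      linarith
    exact (pow_le_pow_iff_left₀ (by norm_num) hr₂0 two_ne_zero).mp h3
  have hTr : T + 6 ≤ r₂ := by
    rw [hr₂]
    exact hTq.trans (Real.rpow_le_rpow_of_exponent_le (by linarith) (by norm_num))
  have hexp2 : Real.exp (2 * l) = (q : ℝ) ^ 2 := by
    rw [hl, mul_comm, Real.exp_mul, Real.exp_log hq0]
    exact_mod_cast Real.rpow_natCast (q : ℝ) 2
  have hexpn : Real.exp (-(2 * l)) ≤ 1 / 3 := by
    rw [Real.exp_neg, hexp2, inv_le_comm₀ (by positivity) (by norm_num)]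
    nlinarith only [hq]
  have hsim : |s.im| ≤ T + 1 / 10 := by
    have h1 : |s.im| ≤ |s.im - ρ.im| + |ρ.im| := by
      calc |s.im| = |(s.im - ρ.im) + ρ.im| := by ring_nf
        _ ≤ _ := abs_add_le _ _
    have h2 : 1 / ℓ ≤ 1 / 10 := one_div_le_one_div_of_le (by norm_num) hℓ10
    linarith
  have hsn : ‖s‖ ≤ T + 3 := by
    calc ‖s‖ ≤ |s.re| + |s.im| := Complex.norm_le_abs_re_add_abs_im s
      _ ≤ T + 3 := by
          rw [hs]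
          have : (|(2 : ℝ)|) = 2 := abs_of_pos (by norm_num)
          rw [this]
          linarith
  have hb : ∀ z ∈ Metric.closedBall s (39 / 20), ‖χ.LFunction z‖ ≤ Real.exp (2 * l) := by
    intro z hz
    rw [Metric.mem_closedBall, dist_eq_norm] at hz
    have hre := Complex.abs_re_le_norm (z - s)
    rw [Complex.sub_re, hs, abs_le] at hre
    rw [hexp2]
    have h3 := EM.L_growth q χ hχ z (by linarith)
    have h4 : ‖z‖ ≤ r₂ := by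
      have h5 : ‖z‖ ≤ ‖z - s‖ + ‖s‖ := by
        calc ‖z‖ = ‖(z - s) + s‖ := by ring_nf
          _ ≤ _ := norm_add_le _ _
      linarith
    calc ‖χ.LFunction z‖ ≤ 20 * (2 * q + 1) * ‖z‖ := h3
      _ ≤ 20 * (2 * q + 1) * r₂ := by gcongr
      _ ≤ 20 * (41 / 20 * q) * r₂ := by gcongr; linarith
      _ = 41 * q * r₂ := by ring
      _ ≤ r₂ * q * r₂ := by gcongr
      _ = q * (r₂ * r₂) := by ring
      _ = (q : ℝ) ^ 2 := by rw [hr₂2]; ring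
  have hc : Real.exp (-(2 * l)) ≤ ‖χ.LFunction s‖ :=
    hexpn.trans (MC.LFunction_lower q χ s hs)
  obtain ⟨r, hr⟩ : ∃ r : ℝ, r = (2 - θ) * (1 + 1 / ℓ ^ 2) := ⟨_, rfl⟩
  have hdist : ‖s - ρ‖ ≤ r := by
    rw [hr]
    exact A21_dist θ ℓ hθ1 hℓ10 s ρ hs him hρ1 hρ2
  have hr0 : 0 < r := by
    rw [hr]
    have : 0 < 2 - θ := by linarith
    positivity
  have hr1 : r ≤ 303 / 200 := by
    have h1 : 1 / ℓ ^ 2 ≤ 1 / 10 ^ 2 := one_div_le_one_div_of_le (by norm_num) (by gcongr)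
    have h2 : 0 ≤ 1 / ℓ ^ 2 := by positivity
    rw [hr]
    calc (2 - θ) * (1 + 1 / ℓ ^ 2) ≤ 3 / 2 * (1 + 1 / 10 ^ 2) :=
          mul_le_mul (by linarith) (by linarith) (by linarith) (by norm_num)
      _ = 303 / 200 := by norm_num
  obtain ⟨k, hk1, hk2, hk3⟩ := hwin χ.LFunction (DirichletCharacter.differentiable_LFunction hχ) s
    (2 * l) (by linarith) hb hc ρ hρ0 r hdist (by linarith) m hmm₀ hmC
  refine ⟨k, hk1, hk2, ?_⟩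
  have herr := A21_err C ε ℓ l r k m hC hε hqℓ (by linarith) hr0 hr1 (by linarith) hk1 hX
  have hk4 : (k : ℝ) + 1 ≤ 3 * L * J' * ℓ := by
    have h1 : (k : ℝ) ≤ L * m := by exact_mod_cast hk2
    have h2 : (L : ℝ) * m ≤ L * (J' * ℓ + 2) := by gcongr
    have h3 : 1 * (12 * 10) ≤ L * (J' * ℓ) := by
      apply mul_le_mul hLR _ (by norm_num) (by positivity)
      apply mul_le_mul hJ' hℓ10 (by norm_num) (by positivity)
    have h4 : (L : ℝ) * 2 ≤ L * (J' * ℓ) := by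
      gcongr
      linarith
    have e1 : 3 * L * J' * ℓ = L * (J' * ℓ) + L * (J' * ℓ) + L * (J' * ℓ) := by ring
    have e2 : (L : ℝ) * (J' * ℓ + 2) = L * (J' * ℓ) + L * 2 := by ring
    linarith
  have hpow := A21_pow θ ℓ (3 * L * J') k hθ1 hℓ10 hk4 hcL
  rw [← hr] at hpow
  rw [mul_add] at hk3
  rw [A21_norm_TC]
  obtain ⟨t, ht⟩ : ∃ t : ℝ, t = ‖TC (logDeriv χ.LFunction) s k‖ := ⟨_, rfl⟩
  rw [← ht] at hk3 ⊢
  have ht0 : 0 ≤ t := by rw [ht]; exact norm_nonneg _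
  have h1 : 1 / 2 * Real.exp (-(ε * m)) ≤ 2 * (2 - θ) ^ (k + 1) * t := by
    have h2 : r ^ (k + 1) * t ≤ 2 * (2 - θ) ^ (k + 1) * t := mul_le_mul_of_nonneg_right hpow ht0
    linarith
  have h2 : 2 * (2 - θ) ^ (k + 1) * t ≤ 3 * (t * (2 - θ) ^ k) := by
    have h3 : 0 ≤ t * (2 - θ) ^ k := by
      have : 0 < 2 - θ := by linarith
      positivity
    have e : 2 * (2 - θ) ^ (k + 1) * t = 2 * (2 - θ) * (t * (2 - θ) ^ k) := by
      rw [pow_succ]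
      ring
    rw [e]
    exact mul_le_mul_of_nonneg_right (by linarith) h3
  linarith

/-- A21. The lower bound: many characters with a zero to the right of `θ` (as `MY.L2`; window_gen). -/
theorem lower (θ A J η : ℝ) (hθ : 1 / 2 ≤ θ) (hθ1 : θ < 1) (hA : 1 ≤ A) (hJ : 12 ≤ J) (hη : 0 < η) :
    ∃ (K₃ ν : ℝ) (q₀ : ℕ), 1 ≤ K₃ ∧ 0 < ν ∧ ν ≤ 1 / 4 ∧
    ∀ (q : ℕ) [NeZero q], q₀ ≤ q → ∀ X : ℝ, (q : ℝ) ≤ X → X ≤ (q : ℝ) ^ A →
    ∀ T : ℝ, 0 ≤ T → T + 6 ≤ (q : ℝ) ^ ν → 1 ≤ NZ q θ T →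
    ∃ s : ℂ, s.re = 2 ∧ ‖s‖ ≤ T + 3 ∧ ∃ k : ℕ, J * Real.log X ≤ k ∧
      (k : ℝ) ≤ K₃ * Real.log X ∧
      (q : ℝ) ^ (-η) * (NZ q θ T / q.totient)
        ≤ ∑ a : (ZMod q)ˣ, (‖Dk q s k a‖ * (2 - θ) ^ k) ^ 2 := by
  classical
  obtain ⟨C, hC, hw⟩ := A21_window
  obtain ⟨J', hJ'⟩ : ∃ J' : ℝ, J' = max J (2 * C + 1) := ⟨_, rfl⟩
  have hJJ : J ≤ J' := by rw [hJ']; exact le_max_left _ _
  have hJC : 2 * C + 1 ≤ J' := by rw [hJ']; exact le_max_right _ _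
  have hJ12 : 12 ≤ J' := hJ.trans hJJ
  obtain ⟨ε, hε⟩ : ∃ ε : ℝ, ε = min (1 / 20) (η / (8 * (A * J'))) := ⟨_, rfl⟩
  have hε0 : 0 < ε := by rw [hε]; exact lt_min (by norm_num) (by positivity)
  have hε1 : ε ≤ 1 / 20 := by rw [hε]; exact min_le_left _ _
  have hε2 : ε * (8 * (A * J')) ≤ η := by
    have h : ε ≤ η / (8 * (A * J')) := by rw [hε]; exact min_le_right _ _
    rwa [le_div_iff₀ (by positivity)] at h
  obtain ⟨L, m₀, hL, hwin⟩ := hw ε hε0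
  have hLR : (1 : ℝ) ≤ L := by exact_mod_cast hL
  obtain ⟨X₁, hX₁⟩ := Filter.eventually_atTop.mp (EM.evX_log (8 * C) (1 / 2) (by norm_num))
  obtain ⟨C₄, hC₄⟩ : ∃ C₄ : ℝ, C₄ = 432 * (L * J') := ⟨_, rfl⟩
  have hC₄0 : 0 ≤ C₄ := by rw [hC₄]; positivity
  have hev := ((((((L2_ev C₄ A 12 η hC₄0 hA le_rfl hη).and (EM.ev_logC 10)).and
    (EM.ev_logC m₀)).and (EM.ev_const X₁ 1 one_pos)).and
    (Filter.eventually_ge_atTop 1681)).and (EM.ev_logC (2 * (3 * L * J'))))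
  obtain ⟨q₀, hq₀⟩ := Filter.eventually_atTop.mp hev
  refine ⟨max 1 (L * (J' + 1)), min (1 / 4) (η / 8), q₀, le_max_left _ _,
    lt_min (by norm_num) (by positivity), min_le_left _ _,
    fun q _ hq X hqX hXA T hT0 hTq hNZ => ?_⟩
  obtain ⟨⟨⟨⟨⟨hq1, hq2⟩, hq3⟩, hq4⟩, hq5⟩, hq6⟩ := hq₀ q hq
  rw [Real.rpow_one] at hq4
  have hqR : (1681 : ℝ) ≤ q := by exact_mod_cast hq5
  have hq0 : (0 : ℝ) < q := by linarith
  have hq1' : (1 : ℝ) ≤ q := by linarith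
  have hX0 : (0 : ℝ) < X := by linarith
  obtain ⟨ℓ, hℓ⟩ : ∃ ℓ : ℝ, ℓ = Real.log X := ⟨_, rfl⟩
  have hlogX : Real.log q ≤ ℓ := by rw [hℓ]; exact Real.log_le_log hq0 hqX
  have hlogXA : ℓ ≤ A * Real.log q := by
    have h := Real.log_le_log hX0 hXA
    rwa [Real.log_rpow hq0, ← hℓ] at h
  have hℓ10 : 10 ≤ ℓ := by linarith
  have hℓ0 : 0 < ℓ := by linarith
  have hX : 8 * C * ℓ ≤ Real.exp (1 / 2 * ℓ) := by
    have h1 := hX₁ X (by linarith)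
    rw [← hℓ] at h1
    refine h1.trans (le_of_eq ?_)
    rw [Real.rpow_def_of_pos hX0, ← hℓ, mul_comm]
  have hTq4 : T + 6 ≤ (q : ℝ) ^ (1 / 4 : ℝ) :=
    hTq.trans (Real.rpow_le_rpow_of_exponent_le hq1' (min_le_left _ _))
  have hTq8 : T + 6 ≤ (q : ℝ) ^ (η / 8) :=
    hTq.trans (Real.rpow_le_rpow_of_exponent_le hq1' (min_le_right _ _))
  obtain ⟨m, hm⟩ : ∃ m : ℕ, m = ⌈J' * ℓ⌉₊ + 1 := ⟨_, rfl⟩
  have hJℓ0 : 0 ≤ J' * ℓ := by positivity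
  have hm1 : J' * ℓ + 1 ≤ m := by
    rw [hm]
    push_cast
    linarith [Nat.le_ceil (J' * ℓ)]
  have hm2 : (m : ℝ) ≤ J' * ℓ + 2 := by
    rw [hm]
    push_cast
    linarith [(Nat.ceil_lt_add_one hJℓ0).le]
  have hphi : (0 : ℝ) < q.totient := by
    exact_mod_cast Nat.totient_pos.mpr (Nat.pos_of_ne_zero (NeZero.ne q))
  obtain ⟨W, hWc, hW⟩ : ∃ W : Finset (DirichletCharacter ℂ q), W.card = NZ q θ T ∧
      ∀ χ ∈ W, χ ∈ nt q ∧ ∃ s : ℂ, θ ≤ s.re ∧ s.re < 1 ∧ |s.im| ≤ T ∧ χ.LFunction s = 0 :=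
    ⟨_, rfl, fun χ hχ => mem_filter.mp hχ⟩
  have hWpos : 0 < W.card := by omega
  -- the index set
  obtain ⟨M, hM⟩ : ∃ M : ℕ, M = ⌈T * ℓ + 1⌉₊ := ⟨_, rfl⟩
  have hTℓ0 : 0 ≤ T * ℓ := by positivity
  have hMl : T * ℓ + 1 ≤ M := by rw [hM]; exact Nat.le_ceil _
  have hMu : (M : ℝ) ≤ T * ℓ + 2 := by
    rw [hM]
    have := (Nat.ceil_lt_add_one (show 0 ≤ T * ℓ + 1 by positivity)).le
    linarith
  obtain ⟨I, hI⟩ : ∃ I : Finset (ℕ × ℤ), I = range (L * m + 1) ×ˢ Finset.Icc (-(M : ℤ)) M :=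
    ⟨_, rfl⟩
  have hmu : (m : ℝ) ≤ 2 * (J' * ℓ) := by
    have : 12 * 10 ≤ J' * ℓ := mul_le_mul hJ12 hℓ10 (by norm_num) (by positivity)
    linarith
  have hIcard : (I.card : ℝ) ≤ 6 * (L * J') * ℓ ^ 2 * (T + 6) := by
    have e1 : I.card = (L * m + 1) * (2 * M + 1) := by
      rw [hI, card_product, card_range, Int.card_Icc]
      congr 1
      omega
    rw [e1]
    push_cast
    have e0 : 1 ≤ L * (J' * ℓ) := by
      have : 12 * 10 ≤ J' * ℓ := mul_le_mul hJ12 hℓ10 (by norm_num) (by positivity)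
      exact one_le_mul_of_one_le_of_one_le hLR (by linarith)
    have e2 : (L : ℝ) * m + 1 ≤ 3 * (L * (J' * ℓ)) := by
      have h1 : (L : ℝ) * m ≤ L * (2 * (J' * ℓ)) := by gcongr
      have h2 : (L : ℝ) * (2 * (J' * ℓ)) = 2 * (L * (J' * ℓ)) := by ring
      linarith
    have e3 : 2 * (M : ℝ) + 1 ≤ 2 * (ℓ * (T + 6)) := by
      have h1 : 2 * (ℓ * (T + 6)) = 2 * (T * ℓ) + 12 * ℓ := by ring
      linarith
    calc ((L : ℝ) * m + 1) * (2 * M + 1) ≤ (3 * (L * (J' * ℓ))) * (2 * (ℓ * (T + 6))) := by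
          gcongr
      _ = 6 * (L * J') * ℓ ^ 2 * (T + 6) := by ring
  have hIne : I.Nonempty := by
    rw [hI]
    refine ⟨(0, 0), ?_⟩
    rw [mem_product]
    refine ⟨by simp, ?_⟩
    rw [Finset.mem_Icc]
    constructor <;> simp
  have hI0 : (0 : ℝ) < I.card := by exact_mod_cast hIne.card_pos
  -- the property
  obtain ⟨P, hP⟩ : ∃ P : DirichletCharacter ℂ q → ℕ × ℤ → Prop, P = fun χ y =>
      m ≤ y.1 + 1 ∧ y.1 ≤ L * m ∧ |(y.2 : ℝ)| ≤ T * ℓ + 1 / 2 ∧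
      1 / 6 * Real.exp (-(ε * m))
        ≤ ‖TC (fun z => -logDeriv χ.LFunction z) (2 + ((y.2 : ℝ) / ℓ : ℝ) * Complex.I) y.1‖
          * (2 - θ) ^ y.1 := ⟨_, rfl⟩
  have hex : ∀ χ ∈ W, ∃ y : ℕ × ℤ, y ∈ I ∧ P χ y := by
    intro χ hχ
    obtain ⟨hχ1, ρ, hρ1, hρ2, hρ3, hρ0⟩ := hW χ hχ
    have hround := abs_sub_round (ρ.im * ℓ)
    obtain ⟨j, hj⟩ : ∃ j : ℤ, j = round (ρ.im * ℓ) := ⟨_, rfl⟩
    rw [← hj] at hround
    have him : ((2 + ((j : ℝ) / ℓ : ℝ) * Complex.I : ℂ)).im = (j : ℝ) / ℓ := by simp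
    have hre : ((2 + ((j : ℝ) / ℓ : ℝ) * Complex.I : ℂ)).re = 2 := by simp
    obtain ⟨k, hk1, hk2, hk3⟩ := A21_one C hC ε hε1 L m₀ hwin θ J' ℓ T hθ hθ1 hJ12 hJC hT0 q χ
      ((mem_nt q χ).mp hχ1) hqR hlogX hq2 hTq4 hq3 hX (hq6.trans hlogX) hL m hm ρ hρ1 hρ2 hρ3 hρ0
      (2 + ((j : ℝ) / ℓ : ℝ) * Complex.I) hre (by
        rw [him]
        have e1 : (j : ℝ) / ℓ - ρ.im = -((ρ.im * ℓ - j) / ℓ) := by
          field_simp
          ring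
        rw [e1, abs_neg, abs_div, abs_of_pos hℓ0]
        gcongr
        linarith)
    have hjabs : |(j : ℝ)| ≤ T * ℓ + 1 / 2 := by
      have e1 : |(j : ℝ)| ≤ |ρ.im * ℓ| + |ρ.im * ℓ - j| := by
        have e2 : (j : ℝ) = ρ.im * ℓ - (ρ.im * ℓ - j) := by ring
        calc |(j : ℝ)| = |ρ.im * ℓ - (ρ.im * ℓ - j)| := by rw [← e2]
          _ ≤ _ := abs_sub _ _
      rw [abs_mul, abs_of_pos hℓ0] at e1
      have e3 : |ρ.im| * ℓ ≤ T * ℓ := mul_le_mul_of_nonneg_right hρ3 hℓ0.le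
      linarith
    refine ⟨(k, j), ?_, ?_⟩
    · rw [hI, mem_product, mem_range, Finset.mem_Icc]
      refine ⟨by omega, ?_, ?_⟩
      · have e1 := neg_abs_le (j : ℝ)
        have e2 : (-(M : ℝ)) ≤ (j : ℝ) := by linarith
        exact_mod_cast e2
      · have e1 := le_abs_self (j : ℝ)
        have e2 : (j : ℝ) ≤ (M : ℝ) := by linarith
        exact_mod_cast e2
    · rw [hP]
      exact ⟨hk1, hk2, hjabs, hk3⟩
  choose! f hf using hex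
  obtain ⟨y, hyI, hyc⟩ := Finset.exists_le_card_fiber_of_nsmul_le_card_of_maps_to
    (s := W) (t := I) (f := f) (fun χ hχ => (hf χ hχ).1) hIne
    (b := (W.card : ℝ) / I.card) (by
      rw [nsmul_eq_mul, mul_div_cancel₀ _ hI0.ne'])
  have hW0 : 0 < (W.card : ℝ) := by exact_mod_cast hWpos
  obtain ⟨W', hW'⟩ : ∃ W' : Finset (DirichletCharacter ℂ q), W' = W.filter (fun χ => f χ = y) :=
    ⟨_, rfl⟩
  rw [← hW'] at hyc
  have hW'0 : 0 < (W'.card : ℝ) := lt_of_lt_of_le (by positivity) hyc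
  have hprop : ∀ χ ∈ W', χ ∈ nt q ∧ P χ y := by
    intro χ hχ
    rw [hW', mem_filter] at hχ
    refine ⟨(hW χ hχ.1).1, ?_⟩
    have := (hf χ hχ.1).2
    rwa [hχ.2] at this
  obtain ⟨χ₀, hχ₀⟩ : W'.Nonempty := by
    rw [← Finset.card_pos]
    exact_mod_cast hW'0
  obtain ⟨k, j⟩ := y
  obtain ⟨s, hs⟩ : ∃ s : ℂ, s = 2 + ((j : ℝ) / ℓ : ℝ) * Complex.I := ⟨_, rfl⟩
  have hP0 := (hprop χ₀ hχ₀).2
  rw [hP] at hP0
  obtain ⟨hk1, hk2, hj, -⟩ := hP0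
  simp only at hk1 hk2 hj
  have hsre : s.re = 2 := by rw [hs]; simp
  have hsim : s.im = (j : ℝ) / ℓ := by rw [hs]; simp
  have hk1R : (m : ℝ) ≤ k + 1 := by exact_mod_cast hk1
  have hk2R : (k : ℝ) ≤ L * m := by exact_mod_cast hk2
  have h2θ : 0 < 2 - θ := by linarith
  refine ⟨s, hsre, ?_, k, ?_, ?_, ?_⟩
  · have e1 : |s.im| ≤ T + 1 := by
      rw [hsim, abs_div, abs_of_pos hℓ0, div_le_iff₀ hℓ0]
      have : (T + 1) * ℓ = T * ℓ + ℓ := by ring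
      linarith
    calc ‖s‖ ≤ |s.re| + |s.im| := Complex.norm_le_abs_re_add_abs_im s
      _ ≤ T + 3 := by
          rw [hsre]
          have : (|(2 : ℝ)|) = 2 := abs_of_pos (by norm_num)
          rw [this]
          linarith
  · rw [← hℓ]
    have : J * ℓ ≤ J' * ℓ := mul_le_mul_of_nonneg_right hJJ hℓ0.le
    linarith
  · rw [← hℓ]
    have e1 : (L : ℝ) * m ≤ L * ((J' + 1) * ℓ) := by
      gcongr
      have : (J' + 1) * ℓ = J' * ℓ + ℓ := by ring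
      linarith
    have e2 : (L : ℝ) * ((J' + 1) * ℓ) = L * (J' + 1) * ℓ := by ring
    have e3 : L * (J' + 1) * ℓ ≤ max 1 (L * (J' + 1)) * ℓ :=
      mul_le_mul_of_nonneg_right (le_max_right _ _) hℓ0.le
    linarith
  · -- the energy
    have hsplit : ∑ a : (ZMod q)ˣ, (‖Dk q s k a‖ * (2 - θ) ^ k) ^ 2
        = (2 - θ) ^ (2 * k) * ∑ a : (ZMod q)ˣ, ‖Dk q s k a‖ ^ 2 := by
      rw [mul_sum]
      refine sum_congr rfl fun a _ => ?_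
      rw [mul_pow, ← pow_mul, mul_comm k 2]
      ring
    rw [hsplit, parseval]
    obtain ⟨E, hE⟩ : ∃ E : ℝ, E = Real.exp (-(ε * m)) := ⟨_, rfl⟩
    have hE0 : 0 < E := by rw [hE]; exact Real.exp_pos _
    have hsum : (W'.card : ℝ) * (1 / 36 * E ^ 2)
        ≤ (2 - θ) ^ (2 * k) * ∑ χ ∈ nt q, ‖TC (fun z => -logDeriv χ.LFunction z) s k‖ ^ 2 := by
      have h1 : W' ⊆ nt q := fun χ hχ => (hprop χ hχ).1
      have h2 : ∑ χ ∈ W', ‖TC (fun z => -logDeriv χ.LFunction z) s k‖ ^ 2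
          ≤ ∑ χ ∈ nt q, ‖TC (fun z => -logDeriv χ.LFunction z) s k‖ ^ 2 :=
        sum_le_sum_of_subset_of_nonneg h1 fun _ _ _ => sq_nonneg _
      have h2' : (2 - θ) ^ (2 * k) * ∑ χ ∈ W', ‖TC (fun z => -logDeriv χ.LFunction z) s k‖ ^ 2
          ≤ (2 - θ) ^ (2 * k) * ∑ χ ∈ nt q, ‖TC (fun z => -logDeriv χ.LFunction z) s k‖ ^ 2 :=
        mul_le_mul_of_nonneg_left h2 (by positivity)
      refine le_trans ?_ h2'
      have h3 : (W'.card : ℝ) * (1 / 36 * E ^ 2) = ∑ χ ∈ W', (1 / 36 * E ^ 2) := by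
        rw [sum_const, nsmul_eq_mul]
      rw [h3, mul_sum]
      refine sum_le_sum fun χ hχ => ?_
      have h4 := (hprop χ hχ).2
      rw [hP] at h4
      obtain ⟨-, -, -, h5⟩ := h4
      simp only at h5
      rw [← hE, ← hs] at h5
      have h6 := pow_le_pow_left₀ (by positivity) h5 2
      calc 1 / 36 * E ^ 2 = (1 / 6 * E) ^ 2 := by ring
        _ ≤ _ := h6
        _ = _ := by
          rw [mul_pow, ← pow_mul, mul_comm k 2]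
          ring
    have hmain : (q : ℝ) ^ (-η) ≤ 1 / I.card * (1 / 36 * E ^ 2) := by
      have e1 : 36 * (I.card : ℝ) ≤ (q : ℝ) ^ η * E ^ 2 := by
        have e2 : E ^ 2 = Real.exp (-(2 * (ε * m))) := by
          rw [hE, ← Real.exp_nat_mul]
          congr 1
          push_cast
          ring
        have e3 : 2 * (ε * m) ≤ η / 4 * Real.log q + 1 / 5 := by
          have h1 : ε * m ≤ ε * (J' * ℓ + 2) := mul_le_mul_of_nonneg_left hm2 hε0.le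
          have h2 : ε * (J' * ℓ) ≤ ε * (J' * (A * Real.log q)) := by gcongr
          have h3 : ε * (8 * (A * J')) * Real.log q ≤ η * Real.log q :=
            mul_le_mul_of_nonneg_right hε2 (by linarith)
          have h4 : ε * (8 * (A * J')) * Real.log q = 8 * (ε * (J' * (A * Real.log q))) := by ring
          have h5 : ε * (J' * ℓ + 2) = ε * (J' * ℓ) + 2 * ε := by ring
          linarith
        have e4 : Real.exp (1 / 5) ≤ 2 := by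
          have h1 : Real.exp (1 / 5) ≤ Real.exp (1 / 2) := Real.exp_le_exp.mpr (by norm_num)
          have h2 : Real.exp (1 / 2) ^ 2 = Real.exp 1 := by
            rw [← Real.exp_nat_mul]; norm_num
          have h3 : Real.exp (1 / 2) ≤ 2 := by
            nlinarith only [h2, Real.exp_one_lt_d9, Real.exp_pos (1 / 2)]
          linarith
        have e5 : (q : ℝ) ^ (-(η / 4)) ≤ 2 * E ^ 2 := by
          have h1 : (q : ℝ) ^ (-(η / 4)) * 1 ≤ (q : ℝ) ^ (-(η / 4)) *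
              (Real.exp (1 / 5) * Real.exp (-(1 / 5))) := by
            rw [← Real.exp_add]
            simp
          have h2 : (q : ℝ) ^ (-(η / 4)) * Real.exp (-(1 / 5)) ≤ E ^ 2 := by
            rw [e2, Real.rpow_def_of_pos hq0, ← Real.exp_add, Real.exp_le_exp]
            linarith
          calc (q : ℝ) ^ (-(η / 4)) = (q : ℝ) ^ (-(η / 4)) * 1 := (mul_one _).symm
            _ ≤ (q : ℝ) ^ (-(η / 4)) * (Real.exp (1 / 5) * Real.exp (-(1 / 5))) := h1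
            _ = Real.exp (1 / 5) * ((q : ℝ) ^ (-(η / 4)) * Real.exp (-(1 / 5))) := by ring
            _ ≤ 2 * E ^ 2 := mul_le_mul e4 h2 (by positivity) (by norm_num)
        have e6 : 72 * (I.card : ℝ) ≤ (q : ℝ) ^ (η / 2) * (q : ℝ) ^ (η / 8) := by
          have h1 : ℓ ^ 2 ≤ (12 / 12 * (A * Real.log q)) ^ 2 :=
            pow_le_pow_left₀ hℓ0.le (by linarith) 2
          calc 72 * (I.card : ℝ) ≤ 72 * (6 * (L * J') * ℓ ^ 2 * (T + 6)) := by gcongr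
            _ = C₄ * ℓ ^ 2 * (T + 6) := by rw [hC₄]; ring
            _ ≤ C₄ * (12 / 12 * (A * Real.log q)) ^ 2 * (T + 6) := by gcongr
            _ ≤ (q : ℝ) ^ (η / 2) * (q : ℝ) ^ (η / 8) := by gcongr
        have e7 : (q : ℝ) ^ (η / 2) * (q : ℝ) ^ (η / 8) ≤ (q : ℝ) ^ η * (q : ℝ) ^ (-(η / 4)) := by
          rw [← Real.rpow_add hq0, ← Real.rpow_add hq0]
          exact Real.rpow_le_rpow_of_exponent_le hq1' (by linarith)
        have e8 : (q : ℝ) ^ η * (q : ℝ) ^ (-(η / 4)) ≤ (q : ℝ) ^ η * (2 * E ^ 2) := by gcongr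
        linarith
      have e9 : (q : ℝ) ^ (-η) = ((q : ℝ) ^ η)⁻¹ := Real.rpow_neg hq0.le _
      have e10 : 0 < (q : ℝ) ^ η := by positivity
      rw [e9, inv_le_iff_one_le_mul₀ e10]
      have e11 : 1 / I.card * (1 / 36 * E ^ 2) * (q : ℝ) ^ η =
          ((q : ℝ) ^ η * E ^ 2) / (36 * I.card) := by
        field_simp
      rw [e11, one_le_div (by positivity)]
      exact e1
    have hfin : (NZ q θ T : ℝ) / q.totient * (1 / I.card * (1 / 36 * E ^ 2)) ≤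
        (2 - θ) ^ (2 * k) * (1 / (q.totient : ℝ) *
          ∑ χ ∈ nt q, ‖TC (fun z => -logDeriv χ.LFunction z) s k‖ ^ 2) := by
      have e1 : (NZ q θ T : ℝ) / q.totient * (1 / I.card * (1 / 36 * E ^ 2)) =
          1 / (q.totient : ℝ) * ((W.card : ℝ) / I.card * (1 / 36 * E ^ 2)) := by
        rw [hWc]
        ring
      have e2 : (2 - θ) ^ (2 * k) * (1 / (q.totient : ℝ) *
          ∑ χ ∈ nt q, ‖TC (fun z => -logDeriv χ.LFunction z) s k‖ ^ 2) =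
          1 / (q.totient : ℝ) * ((2 - θ) ^ (2 * k) *
            ∑ χ ∈ nt q, ‖TC (fun z => -logDeriv χ.LFunction z) s k‖ ^ 2) := by ring
      rw [e1, e2]
      refine mul_le_mul_of_nonneg_left ?_ (by positivity)
      refine le_trans ?_ hsum
      exact mul_le_mul_of_nonneg_right hyc (by positivity)
    refine le_trans ?_ hfin
    rw [mul_comm]
    exact mul_le_mul_of_nonneg_left hmain (by positivity)

end Pool.Agent.MW
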