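import Mathlib
import Pool.Agent.Lib.MP_9cfc0a_nt.Mg.G023
import Pool.Agent.Lib.MP_9cfc0a_nt.MY.C2
import Pool.Agent.Lib.MP_9cfc0a_nt.MY.C3
import Pool.Agent.Lib.MP_9cfc0a_nt.MW.A12
import Pool.Agent.Lib.MP_9cfc0a_nt.Mg.G040

set_option autoImplicit false

namespace Pool.Agent.MW

open Complex Finset MY MZ

/-- The factor `((1/4)^k + 2^k Y^(-1/2)) (2 - θ)^k`. -/
lemma A18_E (θ Y : ℝ) (hθ : 1 / 2 ≤ θ) (hθ1 : θ < 1) (hY : 0 ≤ Y) (k : ℕ) :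
    ((1 / 4 : ℝ) ^ k + 2 ^ k * Y ^ (-(1 / 2) : ℝ)) * (2 - θ) ^ k
      ≤ (3 / 8 : ℝ) ^ k + 3 ^ k * Y ^ (-(1 / 2) : ℝ) := by
  have hρ0 : 0 < 2 - θ := by linarith
  have e1 : (1 / 4 : ℝ) ^ k * (2 - θ) ^ k ≤ (3 / 8) ^ k := by
    rw [← mul_pow]
    exact pow_le_pow_left₀ (by positivity) (by linarith) k
  have e2 : (2 : ℝ) ^ k * (2 - θ) ^ k ≤ 3 ^ k := by
    rw [← mul_pow]
    exact pow_le_pow_left₀ (by positivity) (by linarith) k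
  have hYn : 0 ≤ Y ^ (-(1 / 2) : ℝ) := Real.rpow_nonneg hY _
  calc ((1 / 4 : ℝ) ^ k + 2 ^ k * Y ^ (-(1 / 2) : ℝ)) * (2 - θ) ^ k
      = (1 / 4 : ℝ) ^ k * (2 - θ) ^ k + (2 ^ k * (2 - θ) ^ k) * Y ^ (-(1 / 2) : ℝ) := by ring
    _ ≤ _ := add_le_add e1 (mul_le_mul_of_nonneg_right e2 hYn)

lemma A18_LH (θ S Y : ℝ) (hθ : 1 / 2 ≤ θ) (hθ1 : θ < 1) (hS : 0 ≤ S) (hY : 0 ≤ Y)
    (k n : ℕ) (hn : 1 ≤ n) :
    LH S Y k n * (2 - θ) ^ k ≤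
      60 * (1 + S) * ((3 / 8 : ℝ) ^ k + 3 ^ k * Y ^ (-(1 / 2) : ℝ)) * (n : ℝ) ^ (-θ) := by
  have hnr : (1 : ℝ) ≤ n := by exact_mod_cast hn
  have h2 : (n : ℝ)⁻¹ ≤ (n : ℝ) ^ (-θ) := by
    rw [← Real.rpow_neg_one]
    exact Real.rpow_le_rpow_of_exponent_le hnr (by linarith)
  have h3 := A18_E θ Y hθ hθ1 hY k
  have hE : 0 ≤ (3 / 8 : ℝ) ^ k + 3 ^ k * Y ^ (-(1 / 2) : ℝ) := by
    have := Real.rpow_nonneg hY (-(1 / 2) : ℝ)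
    positivity
  unfold LH
  calc 60 * (1 + S) * (n : ℝ)⁻¹ * ((1 / 4 : ℝ) ^ k + 2 ^ k * Y ^ (-(1 / 2) : ℝ)) * (2 - θ) ^ k
      = 60 * (1 + S) * ((((1 / 4 : ℝ) ^ k + 2 ^ k * Y ^ (-(1 / 2) : ℝ)) * (2 - θ) ^ k)
          * (n : ℝ)⁻¹) := by ring
    _ ≤ 60 * (1 + S) * (((3 / 8 : ℝ) ^ k + 3 ^ k * Y ^ (-(1 / 2) : ℝ)) * (n : ℝ) ^ (-θ)) := by
        refine mul_le_mul_of_nonneg_left ?_ (by positivity)
        exact mul_le_mul h3 h2 (by positivity) hE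
    _ = _ := by ring

/-- The bound for one term. -/
lemma A18_Rw (q : ℕ) [NeZero q] (θ S Y : ℝ) (hθ : 1 / 2 ≤ θ) (hθ1 : θ < 1) (hS : 0 ≤ S)
    (hY : 0 ≤ Y) (B : Finset (ZMod q)ˣ) (s : ℂ) (I₀ k n : ℕ) (hn : 1 ≤ n) :
    Rw q θ B s S Y I₀ k n * (2 - θ) ^ k ≤
      (60 * (1 + S) * ((3 / 8 : ℝ) ^ k + 3 ^ k * Y ^ (-(1 / 2) : ℝ))
        + 2 * (B.card : ℝ) ^ (1 / 2 : ℝ) / q.totient * Real.sqrt (sB q θ B s I₀ k))
        * (n : ℝ) ^ (-θ) := by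
  have hρ0 : 0 < 2 - θ := by linarith
  have h1 := A18_LH θ S Y hθ hθ1 hS hY k n hn
  have e3 : ((2 - θ)⁻¹) ^ k * (2 - θ) ^ k = 1 := by
    rw [← mul_pow, inv_mul_cancel₀ hρ0.ne', one_pow]
  unfold Rw
  calc (LH S Y k n + 2 * (B.card : ℝ) ^ (1 / 2 : ℝ) / q.totient * ((2 - θ)⁻¹) ^ k
      * (n : ℝ) ^ (-θ) * Real.sqrt (sB q θ B s I₀ k)) * (2 - θ) ^ k
      = LH S Y k n * (2 - θ) ^ k + 2 * (B.card : ℝ) ^ (1 / 2 : ℝ) / q.totient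
        * (((2 - θ)⁻¹) ^ k * (2 - θ) ^ k) * (n : ℝ) ^ (-θ) * Real.sqrt (sB q θ B s I₀ k) := by
        ring
    _ ≤ 60 * (1 + S) * ((3 / 8 : ℝ) ^ k + 3 ^ k * Y ^ (-(1 / 2) : ℝ)) * (n : ℝ) ^ (-θ)
        + 2 * (B.card : ℝ) ^ (1 / 2 : ℝ) / q.totient
        * 1 * (n : ℝ) ^ (-θ) * Real.sqrt (sB q θ B s I₀ k) := by
        rw [e3]
        linarith
    _ = _ := by ring

lemma A18_gam (I₀ i : ℕ) : 0 ≤ gam I₀ i := by
  unfold gam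
  split_ifs <;> positivity

lemma A18_sB (q : ℕ) [NeZero q] (θ : ℝ) (B : Finset (ZMod q)ˣ) (s : ℂ) (I₀ k : ℕ) :
    0 ≤ sB q θ B s I₀ k := by
  unfold sB uB
  refine Finset.sum_nonneg fun i _ => mul_nonneg (A18_gam I₀ i) ?_
  exact Finset.sum_nonneg fun a _ => sq_nonneg _

/-- The coefficient of `sB`. -/
lemma A18_beta (Q b φ C K₁ e θ : ℝ) (hθ1 : θ < 1) (hθ : 1 / 2 ≤ θ) (hQ : 1 ≤ Q) (hb : 1 ≤ b)
    (hφ : 0 < φ) (hC : 0 ≤ C) (he : 0 < e)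
    (hbq : b ≤ Q ^ (θ / (2 - θ) - e)) (hφ1 : Q ≤ K₁ * Q ^ (e / 16) * φ)
    (hK1 : 0 ≤ K₁) (hM : 8 * C ^ 2 * K₁ ^ 2 ≤ Q ^ e) :
    2 * b * (2 * b ^ (1 / 2 : ℝ) / φ * (C * (b * Q) ^ (1 - θ) * Q ^ (e / 4))) ^ 2
      ≤ Q ^ (-(e / 4)) := by
  have hQ0 : 0 < Q := by linarith
  have hb0 : 0 < b := by linarith
  have hρ0 : 0 < 2 - θ := by linarith
  have hinv : 1 / φ ≤ K₁ * Q ^ (e / 16) * Q ^ (-1 : ℝ) := by
    rw [div_le_iff₀ hφ, Real.rpow_neg_one]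
    have : K₁ * Q ^ (e / 16) * Q⁻¹ * φ = (K₁ * Q ^ (e / 16) * φ) * Q⁻¹ := by ring
    rw [this]
    calc (1 : ℝ) = Q * Q⁻¹ := by field_simp
      _ ≤ (K₁ * Q ^ (e / 16) * φ) * Q⁻¹ := mul_le_mul_of_nonneg_right hφ1 (by positivity)
  have h5 : (b ^ (1 / 2 : ℝ)) ^ 2 = b := by
    rw [← Real.rpow_natCast, ← Real.rpow_mul hb0.le]
    norm_num
  have h6 : ((b * Q) ^ (1 - θ)) ^ 2 = b ^ (2 - 2 * θ) * Q ^ (2 - 2 * θ) := by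
    rw [← Real.rpow_natCast, ← Real.rpow_mul (by positivity), Real.mul_rpow hb0.le hQ0.le]
    push_cast
    rw [show (1 - θ) * 2 = 2 - 2 * θ by ring]
  have h7 : (Q ^ (e / 4)) ^ 2 = Q ^ (e / 2) := by
    rw [← Real.rpow_natCast, ← Real.rpow_mul hQ0.le]
    push_cast
    rw [show e / 4 * 2 = e / 2 by ring]
  have h8 : b ^ 2 * b ^ (2 - 2 * θ) ≤ Q ^ (2 * θ - 2 * (2 - θ) * e) := by
    have h9 : b ^ 2 * b ^ (2 - 2 * θ) = b ^ (2 * (2 - θ)) := by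
      rw [← Real.rpow_natCast b 2, ← Real.rpow_add hb0]
      push_cast
      rw [show (2 : ℝ) + (2 - 2 * θ) = 2 * (2 - θ) by ring]
    rw [h9]
    calc b ^ (2 * (2 - θ)) ≤ (Q ^ (θ / (2 - θ) - e)) ^ (2 * (2 - θ)) :=
          Real.rpow_le_rpow hb0.le hbq (by positivity)
      _ = Q ^ (2 * θ - 2 * (2 - θ) * e) := by
          rw [← Real.rpow_mul hQ0.le]
          congr 1
          field_simp
  have h10 : (1 / φ) ^ 2 ≤ (K₁ * Q ^ (e / 16) * Q ^ (-1 : ℝ)) ^ 2 :=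
    pow_le_pow_left₀ (by positivity) hinv 2
  calc 2 * b * (2 * b ^ (1 / 2 : ℝ) / φ * (C * (b * Q) ^ (1 - θ) * Q ^ (e / 4))) ^ 2
      = 8 * C ^ 2 * (b * (b ^ (1 / 2 : ℝ)) ^ 2) * (1 / φ) ^ 2 * ((b * Q) ^ (1 - θ)) ^ 2
        * (Q ^ (e / 4)) ^ 2 := by ring
    _ = 8 * C ^ 2 * (b ^ 2 * b ^ (2 - 2 * θ)) * (1 / φ) ^ 2 * (Q ^ (2 - 2 * θ) * Q ^ (e / 2)) := by
        rw [h5, h6, h7]; ring
    _ ≤ 8 * C ^ 2 * Q ^ (2 * θ - 2 * (2 - θ) * e) * (K₁ * Q ^ (e / 16) * Q ^ (-1 : ℝ)) ^ 2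
        * (Q ^ (2 - 2 * θ) * Q ^ (e / 2)) := by
        refine mul_le_mul_of_nonneg_right ?_ (by positivity)
        exact mul_le_mul (mul_le_mul_of_nonneg_left h8 (by positivity)) h10 (by positivity)
          (by positivity)
    _ = (8 * C ^ 2 * K₁ ^ 2) * (Q ^ (2 * θ - 2 * (2 - θ) * e) * (Q ^ (e / 16) * Q ^ (e / 16)
        * (Q ^ (-1 : ℝ) * Q ^ (-1 : ℝ))) * (Q ^ (2 - 2 * θ) * Q ^ (e / 2))) := by ring
    _ ≤ Q ^ e * (Q ^ (2 * θ - 2 * (2 - θ) * e) * (Q ^ (e / 16) * Q ^ (e / 16)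
        * (Q ^ (-1 : ℝ) * Q ^ (-1 : ℝ))) * (Q ^ (2 - 2 * θ) * Q ^ (e / 2))) :=
        mul_le_mul_of_nonneg_right hM (by positivity)
    _ = Q ^ (e + (2 * θ - 2 * (2 - θ) * e + (e / 16 + e / 16 + (-1 + -1)) + (2 - 2 * θ + e / 2))) := by
        simp only [← Real.rpow_add hQ0]
    _ ≤ Q ^ (-(e / 4)) := by
        refine Real.rpow_le_rpow_of_exponent_le hQ ?_
        nlinarith

/-- A18. The error terms (numbers; as `MZ.E3`). -/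
theorem RB (θ ε₀ A K₃ C₁ : ℝ) (κ : ℕ) (hθ : 1 / 2 ≤ θ) (hθ1 : θ < 1) (h0 : 0 < ε₀)
    (h1 : ε₀ ≤ 1 / 10) (hA : 1 ≤ A) (hK : 1 ≤ K₃)
    (hC₁ : 0 ≤ C₁) (hκ : 12 + A * K₃ ≤ ε₀ / 40 * κ) :
    ∃ (K : ℕ) (ν : ℝ) (q₀ : ℕ), 1 ≤ K ∧ 0 < ν ∧ ν ≤ 1 / 4 ∧ ∀ (q : ℕ) [NeZero q], q₀ ≤ q →
    ∀ S : ℝ, 3 ≤ S → S + 2 ≤ (q : ℝ) ^ ν →
    ∀ X : ℝ, (q : ℝ) ≤ X → X ≤ (q : ℝ) ^ A → ∀ B : Finset (ZMod q)ˣ, B.Nonempty →
    (B.card : ℝ) ≤ (q : ℝ) ^ (θ / (2 - θ) - ε₀) → ∀ Y : ℝ, X ^ K ≤ Y → ∀ (s : ℂ) (I₀ : ℕ),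
    ∀ k : ℕ, 60 * Real.log X ≤ k → (k : ℝ) ≤ K₃ * Real.log X →
    ∑ a ∈ B, ((∑ n ∈ Icc 1 (q * NN q ε₀), |cw q θ ε₀ B a n| * Rw q θ B s S Y I₀ k n
        + C₁ * (S + 2) ^ (κ + 1) * (Dz q B (ZW q θ ε₀) a).card * Err q κ (UU q ε₀) k)
          * (2 - θ) ^ k) ^ 2
      ≤ (q : ℝ) ^ (-(ε₀ / 4)) * sB q θ B s I₀ k + (q : ℝ) ^ (-6 : ℝ) ∧
    (q.totient : ℝ) * (LH S Y k 1 * (2 - θ) ^ k) ^ 2 ≤ (q : ℝ) ^ (-6 : ℝ) := by
  obtain ⟨C, q₁, hC, hrc⟩ := rowcol θ ε₀ hθ hθ1 h0 h1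
  set K₁ : ℝ := 1 + 2 / (ε₀ / 16) with hK₁
  have hK1 : 0 ≤ K₁ := by positivity
  have hC0 : 0 ≤ C := by linarith
  set M₁ : ℝ := 8 * C ^ 2 * K₁ ^ 2 with hM₁
  have hM10 : 0 ≤ M₁ := by positivity
  set M₂ : ℝ := 120 * C + 2 * C₁ with hM₂
  have hM20 : 0 ≤ M₂ := by positivity
  set q₂ : ℕ := ⌈M₁ ^ (1 / ε₀)⌉₊ with hq₂
  set q₃ : ℕ := ⌈2 * M₂ ^ 2⌉₊ with hq₃
  refine ⟨⌈4 * K₃ + 20⌉₊ + 1, 1 / ((κ : ℝ) + 4), max q₁ (max 14400 (max q₂ q₃)), by omega,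
    by positivity, ?_, ?_⟩
  · have : (0 : ℝ) ≤ κ := Nat.cast_nonneg κ
    exact one_div_le_one_div_of_le (by norm_num) (by linarith)
  intro q _ hq S hS3 hSν X hqX hXA B hB hBc Y hY s I₀ k hk1 hk2
  have hqq₁ : q₁ ≤ q := (le_max_left _ _).trans hq
  have hqr := (le_max_right _ _).trans hq
  have hq14 : 14400 ≤ q := (le_max_left _ _).trans hqr
  have hqr2 := (le_max_right _ _).trans hqr
  have hqM1 : q₂ ≤ q := (le_max_left _ _).trans hqr2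
  have hqM2 : q₃ ≤ q := (le_max_right _ _).trans hqr2
  have hQ14 : (14400 : ℝ) ≤ q := by exact_mod_cast hq14
  have hQ1 : (1 : ℝ) ≤ q := by linarith
  have hQ0 : (0 : ℝ) < q := by linarith
  have hX1 : 1 ≤ X := by linarith
  have hX0 : 0 < X := by linarith
  have hρ0 : 0 < 2 - θ := by linarith
  have hS0 : 0 ≤ S := by linarith
  have hMq : M₁ ≤ (q : ℝ) ^ ε₀ := by
    have h2 : M₁ ^ (1 / ε₀) ≤ q := (Nat.le_ceil _).trans (by exact_mod_cast hqM1)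
    calc M₁ = (M₁ ^ (1 / ε₀)) ^ ε₀ := by
          rw [← Real.rpow_mul hM10, one_div, inv_mul_cancel₀ h0.ne', Real.rpow_one]
      _ ≤ (q : ℝ) ^ ε₀ := Real.rpow_le_rpow (by positivity) h2 h0.le
  have hMq2 : 2 * M₂ ^ 2 ≤ (q : ℝ) := (Nat.le_ceil _).trans (by exact_mod_cast hqM2)
  obtain ⟨_, hDz, _, _, hWS⟩ := hrc q hqq₁ B hB hBc
  have hb1 : (1 : ℝ) ≤ B.card := by exact_mod_cast hB.card_pos
  have hφn : 0 < q.totient := Nat.totient_pos.mpr (by omega)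
  have hφ : (0 : ℝ) < q.totient := by exact_mod_cast hφn
  have hφQ : (q.totient : ℝ) ≤ q := by exact_mod_cast Nat.totient_le q
  have hφ1 : (q : ℝ) ≤ K₁ * (q : ℝ) ^ (ε₀ / 16) * q.totient :=
    C2_phi (ε₀ / 16) (by positivity) q (by omega)
  -- the powers of `S + 2`
  have hκ0 : (0 : ℝ) ≤ κ := Nat.cast_nonneg κ
  have hSκ : (S + 2) ^ (κ + 1) ≤ (q : ℝ) := by
    calc (S + 2) ^ (κ + 1) ≤ ((q : ℝ) ^ (1 / ((κ : ℝ) + 4))) ^ (κ + 1) :=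
          pow_le_pow_left₀ (by linarith) hSν _
      _ = (q : ℝ) ^ (1 / ((κ : ℝ) + 4) * ((κ : ℝ) + 1)) := by
          rw [← Real.rpow_natCast, ← Real.rpow_mul hQ0.le]
          push_cast
          rfl
      _ ≤ (q : ℝ) ^ (1 : ℝ) := by
          refine Real.rpow_le_rpow_of_exponent_le hQ1 ?_
          rw [one_div_mul_eq_div, div_le_one (by positivity)]
          linarith
      _ = q := Real.rpow_one _
  have hSq : 1 + S ≤ (q : ℝ) := by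
    have h2 : S + 2 ≤ (S + 2) ^ (κ + 1) := by
      calc S + 2 = (S + 2) ^ 1 := (pow_one _).symm
        _ ≤ (S + 2) ^ (κ + 1) := pow_le_pow_right₀ (by linarith) (by omega)
    linarith
  -- the error `E`
  set K : ℕ := ⌈4 * K₃ + 20⌉₊ + 1 with hKdef
  have hKK : 4 * K₃ + 20 ≤ (K : ℝ) := by
    rw [hKdef]
    push_cast
    have := Nat.le_ceil (4 * K₃ + 20)
    linarith
  have hXK : 0 < X ^ K := by positivity
  have hY0 : 0 < Y := lt_of_lt_of_le hXK hY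
  set E : ℝ := (3 / 8 : ℝ) ^ k + 3 ^ k * Y ^ (-(1 / 2) : ℝ) with hE
  have hE0 : 0 ≤ E := by positivity
  have hE1 : E ≤ 2 * (q : ℝ) ^ (-10 : ℝ) := by
    have h2 := C3_err3 q X K₃ K k hQ1 hqX hk1 hk2 hKK
    have h3 : Y ^ (-(1 / 2) : ℝ) ≤ (X ^ K) ^ (-(1 / 2) : ℝ) :=
      Real.rpow_le_rpow_of_nonpos hXK hY (by norm_num)
    have h4 := mul_le_mul_of_nonneg_left h3 (by positivity : (0 : ℝ) ≤ 3 ^ k)
    linarith
  -- the error `Err`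
  have hU0 : 0 ≤ UU q ε₀ := by unfold UU; positivity
  have hErr0 : 0 ≤ Err q κ (UU q ε₀) k := by
    unfold Err
    positivity
  have hErr : (2 - θ) ^ k * Err q κ (UU q ε₀) k ≤ 2 * (q : ℝ) ^ (-7 : ℝ) := by
    have h13 := C3_err q κ (UU q ε₀) θ hU0 hθ hθ1 k
    have h14 : (q : ℝ) ^ (κ + 1) * (UU q ε₀) ^ (-(κ : ℝ)) * 2 ^ k ≤ (q : ℝ) ^ (-11 : ℝ) := by
      unfold UU
      exact C3_err2 q (ε₀ / 40) X A K₃ κ k hQ1 hqX hXA (by linarith) hk2 hκ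
    have h15 : (6 / 7 : ℝ) ^ k ≤ X ^ (-8 : ℝ) :=
      C3_geo (6 / 7) (1 / 7) 8 X (by norm_num) (by norm_num) hX1 k (by
        have : 0 ≤ Real.log X := Real.log_nonneg hX1
        linarith)
    have h16 : X ^ (-8 : ℝ) ≤ (q : ℝ) ^ (-8 : ℝ) :=
      Real.rpow_le_rpow_of_nonpos hQ0 hqX (by norm_num)
    have h17 : (q : ℝ) * (6 / 7 : ℝ) ^ k ≤ (q : ℝ) ^ (-7 : ℝ) := by
      calc (q : ℝ) * (6 / 7 : ℝ) ^ k ≤ (q : ℝ) * (q : ℝ) ^ (-8 : ℝ) :=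
            mul_le_mul_of_nonneg_left (h15.trans h16) hQ0.le
        _ = (q : ℝ) ^ (1 : ℝ) * (q : ℝ) ^ (-8 : ℝ) := by rw [Real.rpow_one]
        _ = (q : ℝ) ^ (-7 : ℝ) := by
            rw [← Real.rpow_add hQ0]
            norm_num
    have h18 : (q : ℝ) ^ (-11 : ℝ) ≤ (q : ℝ) ^ (-7 : ℝ) :=
      Real.rpow_le_rpow_of_exponent_le hQ1 (by norm_num)
    linarith
  -- one row
  set G : ℝ := 2 * (B.card : ℝ) ^ (1 / 2 : ℝ) / q.totient *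
    (C * ((B.card : ℝ) * q) ^ (1 - θ) * (q : ℝ) ^ (ε₀ / 4)) with hG
  have hG0 : 0 ≤ G := by positivity
  set sq : ℝ := Real.sqrt (sB q θ B s I₀ k) with hsq
  have hsq0 : 0 ≤ sq := Real.sqrt_nonneg _
  have hsq2 : sq ^ 2 = sB q θ B s I₀ k := Real.sq_sqrt (A18_sB q θ B s I₀ k)
  have hrow : ∀ a ∈ B, ((∑ n ∈ Icc 1 (q * NN q ε₀), |cw q θ ε₀ B a n| * Rw q θ B s S Y I₀ k n
        + C₁ * (S + 2) ^ (κ + 1) * (Dz q B (ZW q θ ε₀) a).card * Err q κ (UU q ε₀) k)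
          * (2 - θ) ^ k) ^ 2 ≤ (M₂ * (q : ℝ) ^ (-5 : ℝ) + G * sq) ^ 2 := by
    intro a _
    have hR0 : ∀ n : ℕ, 0 ≤ Rw q θ B s S Y I₀ k n := by
      intro n
      unfold Rw LH
      positivity
    refine pow_le_pow_left₀ ?_ ?_ 2
    · refine mul_nonneg (add_nonneg (Finset.sum_nonneg fun n _ =>
        mul_nonneg (abs_nonneg _) (hR0 n)) ?_) (by positivity)
      positivity
    · rw [add_mul, Finset.sum_mul]
      have hs : ∑ n ∈ Icc 1 (q * NN q ε₀),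
          |cw q θ ε₀ B a n| * Rw q θ B s S Y I₀ k n * (2 - θ) ^ k
          ≤ (60 * (1 + S) * E + 2 * (B.card : ℝ) ^ (1 / 2 : ℝ) / q.totient * sq)
            * WW q θ ε₀ B a := by
        unfold WW
        rw [Finset.mul_sum]
        refine Finset.sum_le_sum fun n hn => ?_
        rw [Finset.mem_Icc] at hn
        have h5 := A18_Rw q θ S Y hθ hθ1 hS0 hY0.le B s I₀ k n hn.1
        calc |cw q θ ε₀ B a n| * Rw q θ B s S Y I₀ k n * (2 - θ) ^ k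
            = |cw q θ ε₀ B a n| * (Rw q θ B s S Y I₀ k n * (2 - θ) ^ k) := by ring
          _ ≤ |cw q θ ε₀ B a n| * ((60 * (1 + S) * E + 2 * (B.card : ℝ) ^ (1 / 2 : ℝ) / q.totient *
              sq) * (n : ℝ) ^ (-θ)) :=
              mul_le_mul_of_nonneg_left h5 (abs_nonneg _)
          _ = _ := by ring
      have hs2 : (60 * (1 + S) * E + 2 * (B.card : ℝ) ^ (1 / 2 : ℝ) / q.totient * sq)
            * WW q θ ε₀ B a ≤ 120 * C * (q : ℝ) ^ (-5 : ℝ) + G * sq := by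
        have h6 := hWS a
        have h7 : (60 * (1 + S) * E + 2 * (B.card : ℝ) ^ (1 / 2 : ℝ) / q.totient * sq)
            * WW q θ ε₀ B a ≤ (60 * (1 + S) * E + 2 * (B.card : ℝ) ^ (1 / 2 : ℝ) / q.totient * sq)
            * (C * ((B.card : ℝ) * q) ^ (1 - θ) * (q : ℝ) ^ (ε₀ / 4)) :=
          mul_le_mul_of_nonneg_left h6 (by positivity)
        have h8 : 60 * (1 + S) * E * (C * ((B.card : ℝ) * q) ^ (1 - θ) * (q : ℝ) ^ (ε₀ / 4))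
            ≤ 120 * C * (q : ℝ) ^ (-5 : ℝ) := by
          have h9 := C3_W q B.card θ ε₀ hQ1 (by positivity) hθ hθ1 h0 h1 hBc
          have h10 : (1 + S) * E * (((B.card : ℝ) * q) ^ (1 - θ) * (q : ℝ) ^ (ε₀ / 4))
              ≤ q * (2 * (q : ℝ) ^ (-10 : ℝ)) * (q : ℝ) ^ 2 :=
            mul_le_mul (mul_le_mul hSq hE1 hE0 hQ0.le) h9 (by positivity) (by positivity)
          have h11 : (q : ℝ) * (2 * (q : ℝ) ^ (-10 : ℝ)) * (q : ℝ) ^ 2 ≤ 2 * (q : ℝ) ^ (-5 : ℝ) := by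
            have h12 : (q : ℝ) * (q : ℝ) ^ (-10 : ℝ) * (q : ℝ) ^ 2 = (q : ℝ) ^ (-7 : ℝ) := by
              have e1 : (q : ℝ) = (q : ℝ) ^ (1 : ℝ) := (Real.rpow_one _).symm
              have e2 : (q : ℝ) ^ 2 = (q : ℝ) ^ (2 : ℝ) := by
                rw [← Real.rpow_natCast]
                norm_num
              calc (q : ℝ) * (q : ℝ) ^ (-10 : ℝ) * (q : ℝ) ^ 2
                  = (q : ℝ) ^ (1 : ℝ) * (q : ℝ) ^ (-10 : ℝ) * (q : ℝ) ^ (2 : ℝ) := by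
                    rw [← e2, ← e1]
                _ = (q : ℝ) ^ (-7 : ℝ) := by
                    rw [← Real.rpow_add hQ0, ← Real.rpow_add hQ0]
                    norm_num
            have h13 : (q : ℝ) ^ (-7 : ℝ) ≤ (q : ℝ) ^ (-5 : ℝ) :=
              Real.rpow_le_rpow_of_exponent_le hQ1 (by norm_num)
            calc (q : ℝ) * (2 * (q : ℝ) ^ (-10 : ℝ)) * (q : ℝ) ^ 2
                = 2 * ((q : ℝ) * (q : ℝ) ^ (-10 : ℝ) * (q : ℝ) ^ 2) := by ring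
              _ ≤ 2 * (q : ℝ) ^ (-5 : ℝ) := by rw [h12]; linarith
          calc 60 * (1 + S) * E * (C * ((B.card : ℝ) * q) ^ (1 - θ) * (q : ℝ) ^ (ε₀ / 4))
              = 60 * C * ((1 + S) * E * (((B.card : ℝ) * q) ^ (1 - θ) * (q : ℝ) ^ (ε₀ / 4))) := by
                ring
            _ ≤ 60 * C * (2 * (q : ℝ) ^ (-5 : ℝ)) :=
                mul_le_mul_of_nonneg_left (h10.trans h11) (by positivity)
            _ = _ := by ring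
        calc _ ≤ _ := h7
          _ = 60 * (1 + S) * E * (C * ((B.card : ℝ) * q) ^ (1 - θ) * (q : ℝ) ^ (ε₀ / 4))
              + G * sq := by rw [hG]; ring
          _ ≤ _ := by linarith
      have h7 : C₁ * (S + 2) ^ (κ + 1) * (Dz q B (ZW q θ ε₀) a).card * Err q κ (UU q ε₀) k
          * (2 - θ) ^ k ≤ 2 * C₁ * (q : ℝ) ^ (-5 : ℝ) := by
        have h8 : ((Dz q B (ZW q θ ε₀) a).card : ℝ) * ((2 - θ) ^ k * Err q κ (UU q ε₀) k)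
            ≤ q * (2 * (q : ℝ) ^ (-7 : ℝ)) :=
          mul_le_mul (hDz a) hErr (by positivity) hQ0.le
        have h9 : (S + 2) ^ (κ + 1) * (((Dz q B (ZW q θ ε₀) a).card : ℝ) *
            ((2 - θ) ^ k * Err q κ (UU q ε₀) k)) ≤ q * (q * (2 * (q : ℝ) ^ (-7 : ℝ))) :=
          mul_le_mul hSκ h8 (by positivity) hQ0.le
        have h10 : (q : ℝ) * (q * (2 * (q : ℝ) ^ (-7 : ℝ))) = 2 * (q : ℝ) ^ (-5 : ℝ) := by
          have e1 : (q : ℝ) = (q : ℝ) ^ (1 : ℝ) := (Real.rpow_one _).symm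
          calc (q : ℝ) * (q * (2 * (q : ℝ) ^ (-7 : ℝ)))
              = 2 * ((q : ℝ) ^ (1 : ℝ) * (q : ℝ) ^ (1 : ℝ) * (q : ℝ) ^ (-7 : ℝ)) := by
                rw [← e1]; ring
            _ = 2 * (q : ℝ) ^ (-5 : ℝ) := by
                rw [← Real.rpow_add hQ0, ← Real.rpow_add hQ0]
                norm_num
        calc C₁ * (S + 2) ^ (κ + 1) * (Dz q B (ZW q θ ε₀) a).card * Err q κ (UU q ε₀) k
            * (2 - θ) ^ k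
            = C₁ * ((S + 2) ^ (κ + 1) * (((Dz q B (ZW q θ ε₀) a).card : ℝ) *
              ((2 - θ) ^ k * Err q κ (UU q ε₀) k))) := by ring
          _ ≤ C₁ * (2 * (q : ℝ) ^ (-5 : ℝ)) := by
              rw [← h10]
              exact mul_le_mul_of_nonneg_left h9 hC₁
          _ = _ := by ring
      calc _ ≤ (120 * C * (q : ℝ) ^ (-5 : ℝ) + G * sq) + 2 * C₁ * (q : ℝ) ^ (-5 : ℝ) :=
            add_le_add (hs.trans hs2) h7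
        _ = M₂ * (q : ℝ) ^ (-5 : ℝ) + G * sq := by rw [hM₂]; ring
  have hbQ : (B.card : ℝ) ≤ q := by
    refine hBc.trans ?_
    calc (q : ℝ) ^ (θ / (2 - θ) - ε₀) ≤ (q : ℝ) ^ (1 : ℝ) := by
          refine Real.rpow_le_rpow_of_exponent_le hQ1 ?_
          have : θ / (2 - θ) ≤ 1 := by
            rw [div_le_one hρ0]
            linarith
          linarith
      _ = q := Real.rpow_one _
  refine ⟨?_, ?_⟩
  · refine (Finset.sum_le_sum hrow).trans ?_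
    rw [Finset.sum_const, nsmul_eq_mul]
    have hβ := A18_beta q B.card q.totient C K₁ ε₀ θ hθ1 hθ hQ1 hb1 hφ hC0 h0 hBc hφ1 hK1 hMq
    rw [← hG] at hβ
    have h2 : (M₂ * (q : ℝ) ^ (-5 : ℝ) + G * sq) ^ 2
        ≤ 2 * (M₂ * (q : ℝ) ^ (-5 : ℝ)) ^ 2 + 2 * G ^ 2 * sq ^ 2 := by
      nlinarith [sq_nonneg (M₂ * (q : ℝ) ^ (-5 : ℝ) - G * sq)]
    have h3 : (B.card : ℝ) * (2 * (M₂ * (q : ℝ) ^ (-5 : ℝ)) ^ 2) ≤ (q : ℝ) ^ (-6 : ℝ) := by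
      have h4 : ((q : ℝ) ^ (-5 : ℝ)) ^ 2 = (q : ℝ) ^ (-10 : ℝ) := by
        rw [← Real.rpow_natCast, ← Real.rpow_mul hQ0.le]
        norm_num
      have h5 : (q : ℝ) * q * (q : ℝ) ^ (-10 : ℝ) = (q : ℝ) ^ (-8 : ℝ) := by
        have e1 : (q : ℝ) = (q : ℝ) ^ (1 : ℝ) := (Real.rpow_one _).symm
        calc (q : ℝ) * q * (q : ℝ) ^ (-10 : ℝ)
            = (q : ℝ) ^ (1 : ℝ) * (q : ℝ) ^ (1 : ℝ) * (q : ℝ) ^ (-10 : ℝ) := by rw [← e1]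
          _ = (q : ℝ) ^ (-8 : ℝ) := by
              rw [← Real.rpow_add hQ0, ← Real.rpow_add hQ0]
              norm_num
      calc (B.card : ℝ) * (2 * (M₂ * (q : ℝ) ^ (-5 : ℝ)) ^ 2)
          = B.card * (2 * M₂ ^ 2) * (((q : ℝ) ^ (-5 : ℝ)) ^ 2) := by ring
        _ ≤ (q : ℝ) * q * (((q : ℝ) ^ (-5 : ℝ)) ^ 2) := by
            refine mul_le_mul_of_nonneg_right ?_ (by positivity)
            exact mul_le_mul hbQ hMq2 (by positivity) hQ0.le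
        _ = (q : ℝ) ^ (-8 : ℝ) := by rw [h4, h5]
        _ ≤ (q : ℝ) ^ (-6 : ℝ) := Real.rpow_le_rpow_of_exponent_le hQ1 (by norm_num)
    have h6 : (B.card : ℝ) * (2 * G ^ 2 * sq ^ 2) ≤ (q : ℝ) ^ (-(ε₀ / 4)) * sB q θ B s I₀ k := by
      rw [hsq2]
      calc (B.card : ℝ) * (2 * G ^ 2 * sB q θ B s I₀ k)
          = 2 * B.card * G ^ 2 * sB q θ B s I₀ k := by ring
        _ ≤ _ := mul_le_mul_of_nonneg_right hβ (A18_sB q θ B s I₀ k)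
    have h7 := mul_le_mul_of_nonneg_left h2 (by positivity : (0 : ℝ) ≤ B.card)
    linarith
  · have h5 := A18_LH θ S Y hθ hθ1 hS0 hY0.le k 1 le_rfl
    rw [Nat.cast_one, Real.one_rpow, mul_one] at h5
    have h6 : LH S Y k 1 * (2 - θ) ^ k ≤ 120 * (q : ℝ) ^ (-9 : ℝ) := by
      refine h5.trans ?_
      have h7 : (1 + S) * E ≤ q * (2 * (q : ℝ) ^ (-10 : ℝ)) := mul_le_mul hSq hE1 hE0 hQ0.le
      have h8 : (q : ℝ) * (q : ℝ) ^ (-10 : ℝ) = (q : ℝ) ^ (-9 : ℝ) := by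
        have e1 : (q : ℝ) = (q : ℝ) ^ (1 : ℝ) := (Real.rpow_one _).symm
        calc (q : ℝ) * (q : ℝ) ^ (-10 : ℝ) = (q : ℝ) ^ (1 : ℝ) * (q : ℝ) ^ (-10 : ℝ) := by
              rw [← e1]
          _ = (q : ℝ) ^ (-9 : ℝ) := by
              rw [← Real.rpow_add hQ0]
              norm_num
      calc 60 * (1 + S) * E = 60 * ((1 + S) * E) := by ring
        _ ≤ 60 * (q * (2 * (q : ℝ) ^ (-10 : ℝ))) := mul_le_mul_of_nonneg_left h7 (by norm_num)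
        _ = 120 * (q * (q : ℝ) ^ (-10 : ℝ)) := by ring
        _ = _ := by rw [h8]
    have h60 : 0 ≤ LH S Y k 1 * (2 - θ) ^ k := by
      unfold LH
      positivity
    have h7 : (LH S Y k 1 * (2 - θ) ^ k) ^ 2 ≤ (120 * (q : ℝ) ^ (-9 : ℝ)) ^ 2 :=
      pow_le_pow_left₀ h60 h6 2
    have h4 : ((q : ℝ) ^ (-9 : ℝ)) ^ 2 = (q : ℝ) ^ (-18 : ℝ) := by
      rw [← Real.rpow_natCast, ← Real.rpow_mul hQ0.le]
      norm_num
    have h5 : (q : ℝ) * q * (q : ℝ) ^ (-18 : ℝ) = (q : ℝ) ^ (-16 : ℝ) := by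
      have e1 : (q : ℝ) = (q : ℝ) ^ (1 : ℝ) := (Real.rpow_one _).symm
      calc (q : ℝ) * q * (q : ℝ) ^ (-18 : ℝ)
          = (q : ℝ) ^ (1 : ℝ) * (q : ℝ) ^ (1 : ℝ) * (q : ℝ) ^ (-18 : ℝ) := by rw [← e1]
        _ = (q : ℝ) ^ (-16 : ℝ) := by
            rw [← Real.rpow_add hQ0, ← Real.rpow_add hQ0]
            norm_num
    calc (q.totient : ℝ) * (LH S Y k 1 * (2 - θ) ^ k) ^ 2
        ≤ q * (120 * (q : ℝ) ^ (-9 : ℝ)) ^ 2 := mul_le_mul hφQ h7 (by positivity) hQ0.le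
      _ = q * 14400 * ((q : ℝ) ^ (-9 : ℝ)) ^ 2 := by ring
      _ ≤ q * q * ((q : ℝ) ^ (-9 : ℝ)) ^ 2 := by
          refine mul_le_mul_of_nonneg_right ?_ (by positivity)
          exact mul_le_mul_of_nonneg_left hQ14 hQ0.le
      _ = (q : ℝ) ^ (-16 : ℝ) := by rw [h4, h5]
      _ ≤ (q : ℝ) ^ (-6 : ℝ) := Real.rpow_le_rpow_of_exponent_le hQ1 (by norm_num)

end Pool.Agent.MW
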