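import Mathlib
import Pool.Agent.Lib.MP_9cfc0a_nt.Mg.G023
import Pool.Agent.Lib.MP_9cfc0a_nt.Mg.G037
import Pool.Agent.Lib.MP_9cfc0a_nt.Mg.G039
import Pool.Agent.Lib.MP_9cfc0a_nt.Mg.G038
import Pool.Agent.Lib.MP_9cfc0a_nt.MW.A12
import Pool.Agent.Lib.MP_9cfc0a_nt.Mg.G024
import Pool.Agent.Lib.MP_9cfc0a_nt.Mg.G031
import Pool.Agent.Lib.MP_9cfc0a_nt.MW.A16
import Pool.Agent.Lib.MP_9cfc0a_nt.Mg.G045
import Pool.Agent.Lib.MP_9cfc0a_nt.MW.A18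
import Pool.Agent.Lib.MP_9cfc0a_nt.MY.C3
import Pool.Agent.Lib.MP_9cfc0a_nt.Mg.G027
import Pool.Agent.Lib.MP_9cfc0a_nt.MY.C2

set_option autoImplicit false

namespace Pool.Agent.MW

open Complex Finset MY MZ

lemma A20a_big (c M : ℝ) (hc : 0 < c) : ∃ q₀ : ℕ, ∀ q : ℕ, q₀ ≤ q → M ≤ (q : ℝ) ^ c := by
  have h := ((tendsto_rpow_atTop hc).comp
    (tendsto_natCast_atTop_atTop (R := ℝ))).eventually_ge_atTop M
  obtain ⟨q₀, hq₀⟩ := Filter.eventually_atTop.1 h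
  exact ⟨q₀, fun q hq => hq₀ q hq⟩

/-- a constant times a smaller power -/
lemma A20a_num (M u v : ℝ) (huv : u < v) :
    ∃ q₀ : ℕ, ∀ q : ℕ, q₀ ≤ q → M * (q : ℝ) ^ u ≤ (q : ℝ) ^ v := by
  obtain ⟨q₀, h⟩ := A20a_big (v - u) M (by linarith)
  refine ⟨max 1 q₀, fun q hq => ?_⟩
  have h1 := h q ((le_max_right _ _).trans hq)
  have hq0 : (0 : ℝ) < q := by exact_mod_cast (lt_of_lt_of_le one_pos ((le_max_left _ _).trans hq))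
  have h2 : (q : ℝ) ^ v = (q : ℝ) ^ (v - u) * (q : ℝ) ^ u := by
    rw [← Real.rpow_add hq0]
    congr 1
    ring
  rw [h2]
  exact mul_le_mul_of_nonneg_right h1 (Real.rpow_nonneg hq0.le _)

lemma A20a_sq3 (x a b c t : ℝ) (hx : 0 ≤ x) (ht : 0 ≤ t) (h : x ≤ a + b + c) :
    (x * t) ^ 2 ≤ 3 * ((a * t) ^ 2 + (b * t) ^ 2 + (c * t) ^ 2) := by
  have h1 : (x * t) ^ 2 ≤ ((a + b + c) * t) ^ 2 :=
    pow_le_pow_left₀ (mul_nonneg hx ht) (mul_le_mul_of_nonneg_right h ht) 2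
  nlinarith [sq_nonneg (a * t - b * t), sq_nonneg (a * t - c * t), sq_nonneg (b * t - c * t)]

lemma A20a_Fn_one (q : ℕ) [NeZero q] (B : Finset (ZMod q)ˣ) (X Y : ℝ) (s : ℂ) (k : ℕ)
    (c : (ZMod q)ˣ) : Fn q B X Y s k c 1 = Fj q B X Y s k c := by
  unfold Fn
  rw [Finset.sum_eq_single 0]
  · rw [Nat.cast_one, gi_one, if_pos rfl, one_mul, Nat.sub_zero]
  · intro i _ hi
    rw [Nat.cast_one, gi_one, if_neg hi, zero_mul]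
  · intro h
    exact absurd (Finset.mem_range.mpr (Nat.succ_pos k)) h

lemma A20a_sB_nonneg (q : ℕ) [NeZero q] (θ : ℝ) (B : Finset (ZMod q)ˣ) (s : ℂ) (I₀ k : ℕ) :
    0 ≤ sB q θ B s I₀ k := by
  unfold sB
  refine Finset.sum_nonneg fun i _ => mul_nonneg ?_ ?_
  · unfold gam
    split_ifs <;> positivity
  · unfold uB
    exact Finset.sum_nonneg fun a _ => sq_nonneg _

/-- `b / φ` is small. -/
lemma A20a_frac (θ ε₀ : ℝ) (hθ : 1 / 2 ≤ θ) (hθ1 : θ < 1) (h0 : 0 < ε₀) (h1 : ε₀ ≤ 1 / 10) :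
    ∃ q₀ : ℕ, ∀ (q : ℕ) [NeZero q], q₀ ≤ q → ∀ b : ℝ, 0 ≤ b →
    b ≤ (q : ℝ) ^ (θ / (2 - θ) - ε₀) →
    12 * b / q.totient ≤ (q : ℝ) ^ (-((1 - θ) * ε₀ / 8)) := by
  obtain ⟨q₀, h⟩ := A20a_num (12 * (1 + 2 / (ε₀ / 2))) (-(ε₀ / 2)) (-((1 - θ) * ε₀ / 8)) (by
    nlinarith)
  refine ⟨max 1 q₀, fun q _ hq b hb0 hb => ?_⟩
  have hq1 : 1 ≤ q := (le_max_left _ _).trans hq
  have hq0 : (0 : ℝ) < q := by exact_mod_cast hq1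
  have hq1r : (1 : ℝ) ≤ q := by exact_mod_cast hq1
  refine le_trans ?_ (h q ((le_max_right _ _).trans hq))
  have hφ := C2_phi (ε₀ / 2) (by positivity) q hq1
  have hφ0 : (0 : ℝ) < q.totient := by exact_mod_cast Nat.totient_pos.mpr hq1
  rw [div_le_iff₀ hφ0]
  have h3 : θ / (2 - θ) ≤ 1 := by
    rw [div_le_one (by linarith)]
    linarith
  have h4 : (q : ℝ) ^ (θ / (2 - θ) - ε₀) ≤ (q : ℝ) ^ (1 - ε₀) :=
    Real.rpow_le_rpow_of_exponent_le hq1r (by linarith)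
  have h5 : (q : ℝ) ^ (1 - ε₀) = (q : ℝ) * (q : ℝ) ^ (-ε₀) := by
    rw [sub_eq_add_neg, Real.rpow_add hq0, Real.rpow_one]
  have h6 : (q : ℝ) ^ (-ε₀) * (q : ℝ) ^ (ε₀ / 2) = (q : ℝ) ^ (-(ε₀ / 2)) := by
    rw [← Real.rpow_add hq0]
    congr 1
    ring
  have h7 : 0 ≤ (q : ℝ) ^ (-ε₀) := Real.rpow_nonneg hq0.le _
  calc 12 * b ≤ 12 * ((q : ℝ) * (q : ℝ) ^ (-ε₀)) := by
        rw [← h5]
        linarith
    _ ≤ 12 * (((1 + 2 / (ε₀ / 2)) * (q : ℝ) ^ (ε₀ / 2) * (q.totient : ℝ)) * (q : ℝ) ^ (-ε₀)) := by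
        refine mul_le_mul_of_nonneg_left ?_ (by norm_num)
        exact mul_le_mul_of_nonneg_right hφ h7
    _ = 12 * (1 + 2 / (ε₀ / 2)) * ((q : ℝ) ^ (-ε₀) * (q : ℝ) ^ (ε₀ / 2)) * q.totient := by ring
    _ = 12 * (1 + 2 / (ε₀ / 2)) * (q : ℝ) ^ (-(ε₀ / 2)) * q.totient := by rw [h6]

/-- A20a. One step of the recursion for `uB`. -/
theorem rec_step (θ ε₀ A K₃ η : ℝ) (hθ : 1 / 2 ≤ θ) (hθ1 : θ < 1) (h0 : 0 < ε₀) (h1 : ε₀ ≤ 1 / 10)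
    (hA : 1 ≤ A) (hK : 60 ≤ K₃) (hη : 0 < η) :
    ∃ δ₀ ν T₀ : ℝ, 0 < δ₀ ∧ δ₀ ≤ (1 - θ) / 4 ∧ 0 < ν ∧ ν ≤ 1 / 4 ∧ 8 ≤ T₀ ∧
    ∀ δ : ℝ, 0 < δ → δ ≤ δ₀ → ∃ K q₀ : ℕ, 1 ≤ K ∧
    ∀ (q : ℕ) [NeZero q], q₀ ≤ q → ∀ S : ℝ, 3 ≤ S → S + 2 ≤ (q : ℝ) ^ ν →
    ZFB q (θ - 1 / 2 + δ) (S + T₀) →
    ∀ X : ℝ, (q : ℝ) ≤ X → X ≤ (q : ℝ) ^ A → ∀ B : Finset (ZMod q)ˣ, B.Nonempty →
    (B.card : ℝ) ≤ (q : ℝ) ^ (θ / (2 - θ) - ε₀) → ∀ Y : ℝ, X ^ K ≤ Y → ∀ w2 : ℝ, 0 ≤ w2 →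
    ∫ x in Set.Ioc X Y, VB q B x / x ^ (1 + 2 * θ) ≤ w2 → ∀ s : ℂ, s.re = 2 → ‖s‖ ≤ S →
    ∀ k : ℕ, 60 * Real.log X ≤ k → (k : ℝ) ≤ K₃ * Real.log X →
    uB q θ B s k ≤ ((q : ℝ) ^ η * w2 + (q : ℝ) ^ (-5 : ℝ))
        + (q : ℝ) ^ (-((1 - θ) * ε₀ / 8)) * sB q θ B s ⌈40 * Real.log ((q * NN q ε₀ : ℕ) : ℝ)⌉₊ k ∧
    ∑ a : (ZMod q)ˣ, (‖Dk q s k a‖ * (2 - θ) ^ k) ^ 2
      ≤ ((q : ℝ) ^ η * w2 + (q : ℝ) ^ (-5 : ℝ)) + uB q θ B s k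
        + (q : ℝ) ^ (-((1 - θ) * ε₀ / 8)) * sB q θ B s ⌈40 * Real.log ((q * NN q ε₀ : ℕ) : ℝ)⌉₊ k := by
  have hK1 : 1 ≤ K₃ := by linarith
  obtain ⟨κ, hκ⟩ : ∃ κ : ℕ, 12 + A * K₃ ≤ ε₀ / 40 * κ := by
    obtain ⟨n, hn⟩ := exists_nat_ge ((12 + A * K₃) / (ε₀ / 40))
    refine ⟨n, ?_⟩
    rw [div_le_iff₀ (by positivity)] at hn
    linarith
  obtain ⟨C₁, hC₁, hrow⟩ := row κ
  obtain ⟨δ₀, ν₁, T₀, hδ₀, hδ₁, hν₁, hν₁', hT₀, hX1⟩ :=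
    XB θ ε₀ A K₃ (η / 2) hθ hθ1 h0 h1 hA hK1 (by positivity)
  obtain ⟨K, ν₂, qd, hKpos, hν₂, hν₂', hqd⟩ := RB θ ε₀ A K₃ C₁ κ hθ hθ1 h0 h1 hA hK1 hC₁ hκ
  obtain ⟨Cw, qw, hCw, hqw⟩ := rowcol θ ε₀ hθ hθ1 h0 h1
  obtain ⟨qe, hqe⟩ := A20a_num 3 (η / 2) η (by linarith)
  obtain ⟨qf, hqf⟩ := A20a_num 12 (η / 4) η (by linarith)
  obtain ⟨qg, hqg⟩ := A20a_num 3 (-6) (-5) (by norm_num)
  have hexp : 0 < (1 - θ) * ε₀ := mul_pos (by linarith) h0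
  obtain ⟨qh, hqh⟩ := A20a_num 6 (-((1 - θ) * ε₀)) (-((1 - θ) * ε₀ / 8)) (by linarith)
  obtain ⟨qi, hqi⟩ := A20a_num 6 (-(ε₀ / 4)) (-((1 - θ) * ε₀ / 8)) (by nlinarith)
  obtain ⟨qj, hqj⟩ := A20a_frac θ ε₀ hθ hθ1 h0 h1
  refine ⟨δ₀, min (min ν₁ ν₂) (η / 8), T₀, hδ₀, hδ₁, lt_min (lt_min hν₁ hν₂) (by positivity),
    (min_le_left _ _).trans ((min_le_left _ _).trans hν₁'), hT₀, ?_⟩
  intro δ hδ hδδ₀
  obtain ⟨qb, hqb⟩ := hX1 δ hδ hδδ₀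
  refine ⟨K, 9 + (qb + (qd + (qw + (qe + (qf + (qg + (qh + (qi + qj)))))))), hKpos, ?_⟩
  intro q _ hq S hS3 hSq hZ X hqX hXA B hBne hBc Y hY w2 hw2 hint s hs hsS k hk60 hkK
  have hq9 : 9 ≤ q := by omega
  have hQ9 : (9 : ℝ) ≤ q := by exact_mod_cast hq9
  have hQ1 : (1 : ℝ) ≤ q := by linarith
  have hQ0 : (0 : ℝ) < q := by linarith
  have hX1 : 1 ≤ X := by linarith
  have hlogX : 1 ≤ Real.log X := by
    rw [Real.le_log_iff_exp_le (by linarith)]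
    have := Real.exp_one_lt_d9
    linarith
  have hk1 : 1 ≤ k := by
    have : (1 : ℝ) ≤ k := by linarith
    exact_mod_cast this
  have hSq1 : S + 2 ≤ (q : ℝ) ^ ν₁ := hSq.trans (Real.rpow_le_rpow_of_exponent_le hQ1
    ((min_le_left _ _).trans (min_le_left _ _)))
  have hSq2 : S + 2 ≤ (q : ℝ) ^ ν₂ := hSq.trans (Real.rpow_le_rpow_of_exponent_le hQ1
    ((min_le_left _ _).trans (min_le_right _ _)))
  have hSq3 : S + 2 ≤ (q : ℝ) ^ (η / 8) := hSq.trans (Real.rpow_le_rpow_of_exponent_le hQ1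
    (min_le_right _ _))
  have hXY : X ≤ Y := (le_self_pow₀ hX1 (by omega)).trans hY
  have hY0 : 0 ≤ Y := by linarith
  have hU1 : 1 ≤ UU q ε₀ := Real.one_le_rpow hQ1 (by linarith)
  have hUN : 2 * UU q ε₀ ≤ (NN q ε₀ : ℝ) := Nat.le_ceil _
  have hZ1 : 1 ≤ ZW q θ ε₀ := by
    refine Real.one_le_rpow hQ1 ?_
    have h2 : 1 / 2 ≤ 1 / (2 - θ) := one_div_le_one_div_of_le (by linarith) (by linarith)
    linarith
  have hNN1 : 1 ≤ NN q ε₀ := by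
    have : (1 : ℝ) ≤ (NN q ε₀ : ℝ) := by linarith
    exact_mod_cast this
  have hM1 : 1 ≤ q * NN q ε₀ := Nat.one_le_iff_ne_zero.mpr (Nat.mul_ne_zero (by omega) (by omega))
  obtain ⟨h4B, hDzq, hRow, hCol, hWW⟩ := hqw q (by omega) B hBne hBc
  set I₀ : ℕ := ⌈40 * Real.log ((q * NN q ε₀ : ℕ) : ℝ)⌉₊ with hI₀
  set σ : ℝ := sB q θ B s I₀ k with hσ
  have hσ0 : 0 ≤ σ := A20a_sB_nonneg q θ B s I₀ k
  have hρ0 : 0 < 2 - θ := by linarith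
  have hρi : 0 < (2 - θ)⁻¹ := inv_pos.mpr hρ0
  have hLH0 : ∀ n : ℕ, 0 ≤ LH S Y k n := by
    intro n
    have hYn : 0 ≤ Y ^ (-(1 / 2) : ℝ) := Real.rpow_nonneg hY0 _
    have hS0 : 0 ≤ 1 + S := by linarith
    unfold LH
    positivity
  have hRb0 : ∀ n : ℕ, 0 ≤ Rw q θ B s S Y I₀ k n := by
    intro n
    have h2 := hLH0 n
    unfold Rw
    have h3 : 0 ≤ Real.sqrt (sB q θ B s I₀ k) := Real.sqrt_nonneg _
    positivity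
  have hsize := C3_size q X (ε₀ / 40) hQ9 hqX (by positivity) (by linarith)
  have hdec : ∀ n, 1 ≤ n → n ≤ q * NN q ε₀ → ∀ c ∉ B,
      ‖Dn q s k c n - Fn q B X Y s k c n - (∑ c' ∈ Bᶜ, Dn q s k c' n) / ((Bᶜ).card : ℂ)‖
        ≤ LH S Y k n := by
    intro n hn1 hn2 c hc
    have hnr : (1 : ℝ) ≤ n := by exact_mod_cast hn1
    have hkX : 12 * Real.log (n * X) ≤ k := by
      have h2 : (n : ℝ) * X ≤ (q : ℝ) * ((⌈2 * (q : ℝ) ^ (1 + ε₀ / 40)⌉₊ : ℕ) : ℝ) * X := by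
        refine mul_le_mul_of_nonneg_right ?_ (by linarith)
        have : (n : ℝ) ≤ ((q * NN q ε₀ : ℕ) : ℝ) := by exact_mod_cast hn2
        rw [Nat.cast_mul] at this
        exact this
      have h3 := Real.log_le_log (by positivity) h2
      linarith
    exact decomp q B X Y hX1 hXY s hs S (by linarith) hsS k n hk1 hn1 hkX c hc
  have hmean : ∀ n, 1 ≤ n → n ≤ q * NN q ε₀ →
      ‖(∑ c' ∈ Bᶜ, Dn q s k c' n) / ((Bᶜ).card : ℂ)‖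
      ≤ 2 * (B.card : ℝ) ^ (1 / 2 : ℝ) / q.totient * ((2 - θ)⁻¹) ^ k
        * (n : ℝ) ^ (-θ) * Real.sqrt σ := fun n hn1 hn2 =>
    mean_bound q s hs θ hθ hθ1 B h4B (q * NN q ε₀) k n hn1 hn2
  have hoff : ∀ n, 1 ≤ n → n ≤ q * NN q ε₀ → ∀ c ∉ B,
      ‖Dn q s k c n - Fn q B X Y s k c n‖ ≤ Rw q θ B s S Y I₀ k n := by
    intro n hn1 hn2 c hc
    calc ‖Dn q s k c n - Fn q B X Y s k c n‖
        = ‖(Dn q s k c n - Fn q B X Y s k c n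
            - (∑ c' ∈ Bᶜ, Dn q s k c' n) / ((Bᶜ).card : ℂ))
            + (∑ c' ∈ Bᶜ, Dn q s k c' n) / ((Bᶜ).card : ℂ)‖ := by rw [sub_add_cancel]
      _ ≤ _ := norm_add_le _ _
      _ ≤ _ := add_le_add (hdec n hn1 hn2 c hc) (hmean n hn1 hn2)
      _ = Rw q θ B s S Y I₀ k n := by unfold Rw; rfl
  -- rows
  set t : ℝ := (2 - θ) ^ k with ht
  have ht0 : 0 ≤ t := by positivity
  have hrows : ∀ a ∈ B, ‖Dk q s k a‖ ≤ ‖XW q θ ε₀ B X Y s k a‖ + QW q θ ε₀ B s k a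
      + (∑ n ∈ Icc 1 (q * NN q ε₀), |cw q θ ε₀ B a n| * Rw q θ B s S Y I₀ k n
        + C₁ * (S + 2) ^ (κ + 1) * (Dz q B (ZW q θ ε₀) a).card * Err q κ (UU q ε₀) k) := by
    intro a ha
    have hr := hrow S hS3 q s hs hsS (Dz q B (ZW q θ ε₀) a)
      (fun d hd => ⟨((Dz_mem q (by omega) B _ hZ1 a).2 d hd).1,
        ((Dz_mem q (by omega) B _ hZ1 a).2 d hd).2.1⟩) (UU q ε₀) hU1 (NN q ε₀) hUN a k
    have hp := pieces q (by omega) θ ε₀ hθ hθ1 h0 h1 B X Y s k a ha _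
      (fun n => Rw q θ B s S Y I₀ k n) hr (fun n _ => hRb0 n) hoff
    linarith
  have hXS := hqb q (by omega) S hS3 hSq1 hZ X hqX hXA B hBne hBc Y hXY w2 hw2 hint s hs hsS k hkK
  have hQS : ∑ a ∈ B, (QW q θ ε₀ B s k a * t) ^ 2 ≤ (q : ℝ) ^ (-((1 - θ) * ε₀)) * σ := by
    have h2 := schur q s hs θ hθ hθ1 B (q * NN q ε₀) hM1 (fun a n => |cw q θ ε₀ B a n|)
      (fun a n => abs_nonneg _) ((q : ℝ) ^ (-((1 - θ) * ε₀ / 2))) ((q : ℝ) ^ (-((1 - θ) * ε₀ / 2)))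
      (Real.rpow_nonneg hQ0.le _) (Real.rpow_nonneg hQ0.le _) k hRow hCol
    have h3 : (q : ℝ) ^ (-((1 - θ) * ε₀ / 2)) * (q : ℝ) ^ (-((1 - θ) * ε₀ / 2))
        = (q : ℝ) ^ (-((1 - θ) * ε₀)) := by
      rw [← Real.rpow_add hQ0]
      congr 1
      ring
    rw [h3] at h2
    exact h2
  obtain ⟨hR1, hR2⟩ := hqd q (by omega) S hS3 hSq2 X hqX hXA B hBne hBc Y hY s I₀ k hk60 hkK
  have hin : uB q θ B s k
      ≤ 3 * ((q : ℝ) ^ (η / 2) * w2 + (q : ℝ) ^ (-((1 - θ) * ε₀)) * σ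
        + ((q : ℝ) ^ (-(ε₀ / 4)) * σ + (q : ℝ) ^ (-6 : ℝ))) := by
    calc uB q θ B s k = ∑ a ∈ B, (‖Dk q s k a‖ * t) ^ 2 := rfl
      _ ≤ ∑ a ∈ B, 3 * ((‖XW q θ ε₀ B X Y s k a‖ * t) ^ 2 + (QW q θ ε₀ B s k a * t) ^ 2
          + ((∑ n ∈ Icc 1 (q * NN q ε₀), |cw q θ ε₀ B a n| * Rw q θ B s S Y I₀ k n
        + C₁ * (S + 2) ^ (κ + 1) * (Dz q B (ZW q θ ε₀) a).card * Err q κ (UU q ε₀) k) * t) ^ 2) :=
          Finset.sum_le_sum fun a ha => A20a_sq3 _ _ _ _ t (norm_nonneg _) ht0 (hrows a ha)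
      _ = 3 * (∑ a ∈ B, (‖XW q θ ε₀ B X Y s k a‖ * t) ^ 2 + ∑ a ∈ B, (QW q θ ε₀ B s k a * t) ^ 2
          + ∑ a ∈ B, ((∑ n ∈ Icc 1 (q * NN q ε₀), |cw q θ ε₀ B a n| * Rw q θ B s S Y I₀ k n
        + C₁ * (S + 2) ^ (κ + 1) * (Dz q B (ZW q θ ε₀) a).card * Err q κ (UU q ε₀) k) * t) ^ 2) := by
          rw [← Finset.mul_sum, Finset.sum_add_distrib, Finset.sum_add_distrib]
      _ ≤ _ := by
          refine mul_le_mul_of_nonneg_left ?_ (by norm_num)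
          exact add_le_add (add_le_add hXS hQS) hR1
  -- outside `B`
  have hφ0 : (0 : ℝ) < q.totient := by exact_mod_cast Nat.totient_pos.mpr (by omega)
  have hout1 : ∀ c ∈ Bᶜ, (‖Dk q s k c‖ * t) ^ 2
      ≤ 3 * ((‖Fj q B X Y s k c‖ * t) ^ 2 + (LH S Y k 1 * t) ^ 2
        + (2 * (B.card : ℝ) ^ (1 / 2 : ℝ) / q.totient * ((2 - θ)⁻¹) ^ k
        * Real.sqrt σ * t) ^ 2) := by
    intro c hc
    rw [Finset.mem_compl] at hc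
    have h2 := hdec 1 le_rfl hM1 c hc
    have h3 := hmean 1 le_rfl hM1
    rw [Nat.cast_one, Real.one_rpow, mul_one] at h3
    rw [Dn_one, A20a_Fn_one] at h2
    refine A20a_sq3 _ _ _ _ t (norm_nonneg _) ht0 ?_
    calc ‖Dk q s k c‖ = ‖Fj q B X Y s k c + (Dk q s k c - Fj q B X Y s k c
            - (∑ c' ∈ Bᶜ, Dn q s k c' 1) / ((Bᶜ).card : ℂ))
            + (∑ c' ∈ Bᶜ, Dn q s k c' 1) / ((Bᶜ).card : ℂ)‖ := by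
          congr 1
          ring
      _ ≤ _ := norm_add₃_le
      _ ≤ _ := add_le_add (add_le_add le_rfl h2) h3
  have htt : ((2 - θ)⁻¹) ^ k * t = 1 := by
    rw [ht, ← mul_pow, inv_mul_cancel₀ hρ0.ne', one_pow]
  have hFj := Fj_norm q B θ hθ hθ1 X Y hX1 hXY s hs S hS3 hsS k
  have hFj2 : ∑ c ∈ Bᶜ, (‖Fj q B X Y s k c‖ * t) ^ 2 ≤ 4 * S ^ 2 * w2 := by
    calc ∑ c ∈ Bᶜ, (‖Fj q B X Y s k c‖ * t) ^ 2 ≤ ∑ c, (‖Fj q B X Y s k c‖ * t) ^ 2 :=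
          Finset.sum_le_sum_of_subset_of_nonneg (Finset.subset_univ _) fun c _ _ => sq_nonneg _
      _ = (∑ c, ‖Fj q B X Y s k c‖ ^ 2) * t ^ 2 := by
          rw [Finset.sum_mul]
          exact Finset.sum_congr rfl fun c _ => by rw [mul_pow]
      _ ≤ ((2 * S * ((2 - θ)⁻¹) ^ k) ^ 2 * w2) * t ^ 2 := by
          refine mul_le_mul_of_nonneg_right (hFj.trans ?_) (sq_nonneg _)
          exact mul_le_mul_of_nonneg_left hint (sq_nonneg _)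
      _ = (2 * S * (((2 - θ)⁻¹) ^ k * t)) ^ 2 * w2 := by ring
      _ = 4 * S ^ 2 * w2 := by rw [htt]; ring
  have hcardc : ((Bᶜ).card : ℝ) ≤ q.totient := by
    have h2 : (Bᶜ).card ≤ Fintype.card (ZMod q)ˣ := Finset.card_le_univ _
    rw [ZMod.card_units_eq_totient] at h2
    exact_mod_cast h2
  have hb0 : (0 : ℝ) ≤ B.card := Nat.cast_nonneg _
  have hmean2 : (2 * (B.card : ℝ) ^ (1 / 2 : ℝ) / q.totient * ((2 - θ)⁻¹) ^ k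
        * Real.sqrt σ * t) ^ 2 = 4 * B.card / (q.totient : ℝ) ^ 2 * σ := by
    have h2 : ((B.card : ℝ) ^ (1 / 2 : ℝ)) ^ 2 = B.card := by
      rw [← Real.rpow_natCast, ← Real.rpow_mul hb0]
      norm_num
    calc (2 * (B.card : ℝ) ^ (1 / 2 : ℝ) / q.totient * ((2 - θ)⁻¹) ^ k * Real.sqrt σ * t) ^ 2
        = 4 * ((B.card : ℝ) ^ (1 / 2 : ℝ)) ^ 2 / (q.totient : ℝ) ^ 2 * (Real.sqrt σ) ^ 2
          * (((2 - θ)⁻¹) ^ k * t) ^ 2 := by ring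
      _ = 4 * B.card / (q.totient : ℝ) ^ 2 * σ := by
          rw [h2, htt, Real.sq_sqrt hσ0]
          ring
  have hout : ∑ c ∈ Bᶜ, (‖Dk q s k c‖ * t) ^ 2
      ≤ 12 * S ^ 2 * w2 + 3 * (q : ℝ) ^ (-6 : ℝ) + 12 * B.card / q.totient * σ := by
    calc ∑ c ∈ Bᶜ, (‖Dk q s k c‖ * t) ^ 2
        ≤ ∑ c ∈ Bᶜ, 3 * ((‖Fj q B X Y s k c‖ * t) ^ 2 + (LH S Y k 1 * t) ^ 2
        + (2 * (B.card : ℝ) ^ (1 / 2 : ℝ) / q.totient * ((2 - θ)⁻¹) ^ k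
        * Real.sqrt σ * t) ^ 2) := Finset.sum_le_sum hout1
      _ = 3 * (∑ c ∈ Bᶜ, (‖Fj q B X Y s k c‖ * t) ^ 2
          + ((Bᶜ).card : ℝ) * (LH S Y k 1 * t) ^ 2
          + ((Bᶜ).card : ℝ) * (4 * B.card / (q.totient : ℝ) ^ 2 * σ)) := by
          rw [hmean2, ← Finset.mul_sum, Finset.sum_add_distrib, Finset.sum_add_distrib,
            Finset.sum_const, Finset.sum_const, nsmul_eq_mul, nsmul_eq_mul]
      _ ≤ 3 * (4 * S ^ 2 * w2 + q.totient * (LH S Y k 1 * t) ^ 2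
          + q.totient * (4 * B.card / (q.totient : ℝ) ^ 2 * σ)) := by
          refine mul_le_mul_of_nonneg_left (add_le_add (add_le_add hFj2 ?_) ?_) (by norm_num)
          · exact mul_le_mul_of_nonneg_right hcardc (sq_nonneg _)
          · exact mul_le_mul_of_nonneg_right hcardc (by positivity)
      _ ≤ 3 * (4 * S ^ 2 * w2 + (q : ℝ) ^ (-6 : ℝ) + 4 * B.card / q.totient * σ) := by
          refine mul_le_mul_of_nonneg_left (add_le_add (add_le_add le_rfl hR2) ?_) (by norm_num)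
          apply le_of_eq
          field_simp
      _ = _ := by ring
  have hf1 := hqe q (by omega)
  have hf2 := hqf q (by omega)
  have hf3 := hqg q (by omega)
  have hf4 := hqh q (by omega)
  have hf5 := hqi q (by omega)
  have hf6 := hqj q (by omega) B.card hb0 hBc
  set R : ℝ := (q : ℝ) ^ (-((1 - θ) * ε₀ / 8)) with hR
  have hS2 : 12 * S ^ 2 ≤ (q : ℝ) ^ η := by
    have h2 : S ^ 2 ≤ ((q : ℝ) ^ (η / 8)) ^ 2 := pow_le_pow_left₀ (by linarith) (by linarith) 2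
    have h3 : ((q : ℝ) ^ (η / 8)) ^ 2 = (q : ℝ) ^ (η / 4) := by
      rw [← Real.rpow_natCast, ← Real.rpow_mul hQ0.le]
      congr 1
      push_cast
      ring
    rw [h3] at h2
    linarith
  refine ⟨?_, ?_⟩
  · have e1 := mul_le_mul_of_nonneg_right hf1 hw2
    have e4 := mul_le_mul_of_nonneg_right hf4 hσ0
    have e5 := mul_le_mul_of_nonneg_right hf5 hσ0
    linarith
  · have e2 := mul_le_mul_of_nonneg_right hS2 hw2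
    have e6 := mul_le_mul_of_nonneg_right hf6 hσ0
    calc ∑ a : (ZMod q)ˣ, (‖Dk q s k a‖ * t) ^ 2
        = ∑ a ∈ B, (‖Dk q s k a‖ * t) ^ 2 + ∑ a ∈ Bᶜ, (‖Dk q s k a‖ * t) ^ 2 :=
          (Finset.sum_add_sum_compl B _).symm
      _ = uB q θ B s k + ∑ a ∈ Bᶜ, (‖Dk q s k a‖ * t) ^ 2 := rfl
      _ ≤ uB q θ B s k + (12 * S ^ 2 * w2 + 3 * (q : ℝ) ^ (-6 : ℝ)
          + 12 * B.card / q.totient * σ) := by linarith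
      _ ≤ _ := by linarith

end Pool.Agent.MW
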